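import Pool.Agent.Q291.HEA.Stm3
import Pool.Agent.Q66.HEA.Sca

/-!
Job CB of project HEA (helper291): sums of symmetric random variables.
-/

set_option autoImplicit false

namespace Pool.Agent.Q137.HEA.CB

open MeasureTheory Filter Topology Set Pool.Agent.Q291.HEA Pool.Agent.Q66.HEA

/-- a median of the absolute value -/
theorem exists_med (ν : Measure ℝ) [IsProbabilityMeasure ν] :
    ∃ a : ℝ, 0 ≤ a ∧ 1 / 2 ≤ ν.real {x | |x| ≤ a} ∧ 1 / 2 ≤ ν.real {x | a ≤ |x|} := by
  have hm : ∀ t : ℝ, MeasurableSet {x : ℝ | |x| ≤ t} := fun t =>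
    measurableSet_le measurable_id.abs measurable_const
  have hm' : ∀ t : ℝ, MeasurableSet {x : ℝ | t < |x|} := fun t =>
    measurableSet_lt measurable_const measurable_id.abs
  obtain ⟨S, hS⟩ : ∃ S : Set ℝ, S = {t | 0 ≤ t ∧ 1 / 2 ≤ ν.real {x | |x| ≤ t}} := ⟨_, rfl⟩
  have hne : S.Nonempty := by
    have h1 : Tendsto (fun n : ℕ => ν {x : ℝ | |x| ≤ n}) atTop (𝓝 (ν (⋃ n : ℕ, {x : ℝ | |x| ≤ n}))) := by
      refine tendsto_measure_iUnion_atTop ?_
      intro n m hnm x hx
      have : (n : ℝ) ≤ m := by exact_mod_cast hnm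
      exact le_trans hx this
    have h2 : (⋃ n : ℕ, {x : ℝ | |x| ≤ n}) = univ := by
      refine eq_univ_of_forall fun x => ?_
      obtain ⟨n, hn⟩ := exists_nat_ge |x|
      exact mem_iUnion.2 ⟨n, hn⟩
    rw [h2, measure_univ] at h1
    have h3 : ∀ᶠ n : ℕ in atTop, (1 / 2 : ENNReal) < ν {x : ℝ | |x| ≤ n} :=
      h1.eventually_const_lt (by
        rw [ENNReal.div_lt_iff (by simp) (by simp)]
        norm_num)
    obtain ⟨n, hn⟩ := h3.exists
    refine ⟨n, ?_⟩
    rw [hS]
    refine ⟨Nat.cast_nonneg n, ?_⟩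
    rw [measureReal_def]
    have := ENNReal.toReal_mono (measure_ne_top ν _) hn.le
    refine le_trans ?_ this
    simp
  have hbd : BddBelow S := ⟨0, fun t ht => by rw [hS] at ht; exact ht.1⟩
  obtain ⟨a, ha⟩ : ∃ a : ℝ, a = sInf S := ⟨_, rfl⟩
  have ha0 : 0 ≤ a := by
    rw [ha]
    exact le_csInf hne fun t ht => by rw [hS] at ht; exact ht.1
  refine ⟨a, ha0, ?_, ?_⟩
  · have h1 : Tendsto (fun n : ℕ => ν {x : ℝ | |x| ≤ a + 1 / ((n : ℝ) + 1)}) atTop
        (𝓝 (ν (⋂ n : ℕ, {x : ℝ | |x| ≤ a + 1 / ((n : ℝ) + 1)}))) := by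
      refine tendsto_measure_iInter_atTop (fun n => (hm _).nullMeasurableSet) ?_
        ⟨0, measure_ne_top ν _⟩
      intro n m hnm x hx
      have h2 : 1 / ((m : ℝ) + 1) ≤ 1 / ((n : ℝ) + 1) := by
        have : (n : ℝ) ≤ m := by exact_mod_cast hnm
        exact one_div_le_one_div_of_le (by positivity) (by linarith)
      have h3 : |x| ≤ a + 1 / ((m : ℝ) + 1) := hx
      exact le_trans h3 (by linarith)
    have h2 : (⋂ n : ℕ, {x : ℝ | |x| ≤ a + 1 / ((n : ℝ) + 1)}) = {x | |x| ≤ a} := by
      ext x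
      rw [mem_iInter]
      constructor
      · intro h
        have h3 : Tendsto (fun n : ℕ => a + 1 / ((n : ℝ) + 1)) atTop (𝓝 (a + 0)) :=
          tendsto_const_nhds.add tendsto_one_div_add_atTop_nhds_zero_nat
        rw [add_zero] at h3
        exact ge_of_tendsto' h3 h
      · intro h n
        have : |x| ≤ a := h
        have h4 : 0 < 1 / ((n : ℝ) + 1) := by positivity
        exact le_trans this (by linarith)
    rw [h2] at h1
    have h3 := (ENNReal.tendsto_toReal (measure_ne_top ν _)).comp h1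
    refine ge_of_tendsto' h3 fun n => ?_
    obtain ⟨t, ht, hta⟩ := (csInf_lt_iff hbd hne).1 (show sInf S < a + 1 / ((n : ℝ) + 1) by
      rw [← ha]
      have h4 : 0 < 1 / ((n : ℝ) + 1) := by positivity
      linarith)
    rw [hS] at ht
    refine le_trans ht.2 (measureReal_mono ?_ (measure_ne_top ν _))
    intro x hx
    exact le_trans hx hta.le
  · rcases ha0.eq_or_lt with h0 | h0
    · have : {x : ℝ | a ≤ |x|} = univ := by
        refine eq_univ_of_forall fun x => ?_
        rw [mem_ofPred_eq, ← h0]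
        exact abs_nonneg x
      rw [this, probReal_univ]
      norm_num
    have h1 : Tendsto (fun n : ℕ => ν {x : ℝ | a - a * (1 / ((n : ℝ) + 1)) < |x|}) atTop
        (𝓝 (ν (⋂ n : ℕ, {x : ℝ | a - a * (1 / ((n : ℝ) + 1)) < |x|}))) := by
      refine tendsto_measure_iInter_atTop (fun n => (hm' _).nullMeasurableSet) ?_
        ⟨0, measure_ne_top ν _⟩
      intro n m hnm x hx
      have h2 : 1 / ((m : ℝ) + 1) ≤ 1 / ((n : ℝ) + 1) := by
        have : (n : ℝ) ≤ m := by exact_mod_cast hnm
        exact one_div_le_one_div_of_le (by positivity) (by linarith)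
      have h3 : a - a * (1 / ((m : ℝ) + 1)) < |x| := hx
      have h4 := mul_le_mul_of_nonneg_left h2 h0.le
      change a - a * (1 / ((n : ℝ) + 1)) < |x|
      linarith
    have h2 : (⋂ n : ℕ, {x : ℝ | a - a * (1 / ((n : ℝ) + 1)) < |x|}) = {x | a ≤ |x|} := by
      ext x
      rw [mem_iInter]
      constructor
      · intro h
        have h3 : Tendsto (fun n : ℕ => a - a * (1 / ((n : ℝ) + 1))) atTop (𝓝 (a - a * 0)) :=
          tendsto_const_nhds.sub (tendsto_one_div_add_atTop_nhds_zero_nat.const_mul a)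
        rw [mul_zero, sub_zero] at h3
        exact le_of_tendsto' h3 fun n => (h n).le
      · intro h n
        have h5 : a ≤ |x| := h
        have h4 : 0 < a * (1 / ((n : ℝ) + 1)) := by positivity
        change a - a * (1 / ((n : ℝ) + 1)) < |x|
        linarith
    rw [h2] at h1
    have h3 := (ENNReal.tendsto_toReal (measure_ne_top ν _)).comp h1
    refine ge_of_tendsto' h3 fun n => ?_
    change 1 / 2 ≤ ν.real {x : ℝ | a - a * (1 / ((n : ℝ) + 1)) < |x|}
    have h5 : 0 < 1 / ((n : ℝ) + 1) := by positivity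
    have h5' : 1 / ((n : ℝ) + 1) ≤ 1 := by
      rw [div_le_one (by positivity)]
      linarith [(Nat.cast_nonneg n : (0 : ℝ) ≤ n)]
    have h6 : a - a * (1 / ((n : ℝ) + 1)) ∉ S := by
      intro hmem
      have h7 := csInf_le hbd hmem
      rw [← ha] at h7
      have := mul_pos h0 h5
      linarith
    have h7 : ν.real {x : ℝ | |x| ≤ a - a * (1 / ((n : ℝ) + 1))} < 1 / 2 := by
      by_contra hcon
      push Not at hcon
      apply h6
      rw [hS]
      refine ⟨?_, hcon⟩
      have := mul_le_mul_of_nonneg_left h5' h0.le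
      linarith
    have h8 : {x : ℝ | a - a * (1 / ((n : ℝ) + 1)) < |x|} =
        {x : ℝ | |x| ≤ a - a * (1 / ((n : ℝ) + 1))}ᶜ := by
      ext x
      simp
    rw [h8, probReal_compl_eq_one_sub (hm _)]
    linarith

theorem sym_real {m : Measure ℝ} (h : Pool.Agent.Q291.HEA.Sym m) {A : Set ℝ} (hA : MeasurableSet A) :
    m.real ((fun x => -x) ⁻¹' A) = m.real A := by
  conv_rhs => rw [← h]
  rw [map_measureReal_apply measurable_neg hA]

theorem half_of {m : Measure ℝ} [IsProbabilityMeasure m] (h : Pool.Agent.Q291.HEA.Sym m)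
    {S A : Set ℝ} (hA : MeasurableSet A) (hS : S ⊆ A ∪ (fun x => -x) ⁻¹' A) :
    m.real S / 2 ≤ m.real A := by
  have h1 : m.real S ≤ m.real (A ∪ (fun x => -x) ⁻¹' A) := measureReal_mono hS (measure_ne_top _ _)
  have h2 : m.real (A ∪ (fun x => -x) ⁻¹' A) ≤ m.real A + m.real ((fun x => -x) ⁻¹' A) :=
    measureReal_union_le _ _
  rw [sym_real h hA] at h2
  linarith

theorem conv_rect (μ ν : Measure ℝ) [IsProbabilityMeasure μ] [IsProbabilityMeasure ν]
    {A C S : Set ℝ} (hS : MeasurableSet S) (h : ∀ x ∈ A, ∀ y ∈ C, x + y ∈ S) :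
    μ.real A * ν.real C ≤ (Measure.conv μ ν).real S := by
  unfold Measure.conv
  have hm : Measurable (fun x : ℝ × ℝ => x.1 + x.2) := measurable_fst.add measurable_snd
  rw [map_measureReal_apply hm hS, ← measureReal_prod_prod]
  refine measureReal_mono ?_ (measure_ne_top _ _)
  rintro ⟨x, y⟩ ⟨hx, hy⟩
  exact h x hx y hy

theorem t_CB : P_CB := by
  intro B hB
  refine ⟨1 / 8 * (1 / 8) ^ B, by positivity, ?_⟩
  intro ν _ hs x
  obtain ⟨a, ha, h1, h2⟩ := exists_med ν
  have q1 : 1 / 4 ≤ ν.real (Ici a) := by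
    have := half_of hs (S := {x | a ≤ |x|}) (A := Ici a) measurableSet_Ici (by
      intro t ht
      rcases abs_cases t with h | h
      · left
        have : a ≤ |t| := ht
        rw [mem_Ici]; linarith
      · right
        have : a ≤ |t| := ht
        rw [mem_preimage, mem_Ici]; linarith)
    linarith
  have q2 : 1 / 4 ≤ ν.real (Icc (-a) 0) := by
    have := half_of hs (S := {x | |x| ≤ a}) (A := Icc (-a) 0) measurableSet_Icc (by
      intro t ht
      have h3 : |t| ≤ a := ht
      rw [abs_le] at h3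
      rcases le_total t 0 with h | h
      · left; exact ⟨h3.1, h⟩
      · right
        rw [mem_preimage]
        exact ⟨by linarith [h3.2], by linarith⟩)
    linarith
  have q3 : ∀ n, (1 / 8 : ℝ) ^ n ≤ (par ν n).real (Icc (-a) a) := by
    intro n
    induction n with
    | zero =>
      rw [pow_zero]
      unfold par
      rw [measureReal_def, Measure.dirac_apply_of_mem (by constructor <;> linarith)]
      simp
    | succ n ih =>
      have hp := par_prob ν n
      have hsy := par_sym ν hs n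
      have r1 : (1 / 8 : ℝ) ^ n / 2 ≤ (par ν n).real (Icc 0 a) := by
        have := half_of hsy (S := Icc (-a) a) (A := Icc 0 a) measurableSet_Icc (by
          intro t ht
          rcases le_total 0 t with h | h
          · left; exact ⟨h, ht.2⟩
          · right
            rw [mem_preimage]
            exact ⟨by linarith, by linarith [ht.1]⟩)
        linarith
      have r2 : ν.real (Icc (-a) 0) * (par ν n).real (Icc 0 a) ≤ (par ν (n + 1)).real (Icc (-a) a) :=
        conv_rect ν (par ν n) measurableSet_Icc (fun x hx y hy =>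
          ⟨by linarith [hx.1, hy.1], by linarith [hx.2, hy.2]⟩)
      calc (1 / 8 : ℝ) ^ (n + 1) = 1 / 4 * ((1 / 8) ^ n / 2) := by ring
        _ ≤ ν.real (Icc (-a) 0) * (par ν n).real (Icc 0 a) :=
            mul_le_mul q2 r1 (by positivity) measureReal_nonneg
        _ ≤ _ := r2
  obtain ⟨k, hk⟩ : ∃ k, B - 1 = k + 1 := ⟨B - 2, by omega⟩
  have hpk := par_prob ν k
  have hpk1 := par_prob ν (k + 1)
  have hpB := par_prob ν B
  have hsk := par_sym ν hs k
  have q4 : 1 / 8 ≤ (par ν (k + 1)).real (Ici a) := by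
    have r1 : 1 / 2 ≤ (par ν k).real (Ici 0) := by
      have := half_of hsk (S := univ) (A := Ici 0) measurableSet_Ici (by
        intro t _
        rcases le_total 0 t with h | h
        · left; exact h
        · right
          rw [mem_preimage, mem_Ici]; linarith)
      rw [probReal_univ] at this
      exact this
    have r2 : ν.real (Ici a) * (par ν k).real (Ici 0) ≤ (par ν (k + 1)).real (Ici a) :=
      conv_rect ν (par ν k) measurableSet_Ici (fun x hx y hy => by
        rw [mem_Ici] at *; linarith)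
    calc (1 / 8 : ℝ) = 1 / 4 * (1 / 2) := by norm_num
      _ ≤ ν.real (Ici a) * (par ν k).real (Ici 0) := mul_le_mul q1 r1 (by norm_num) measureReal_nonneg
      _ ≤ _ := r2
  have q5 : 1 / 8 ≤ (par ν (k + 1)).real (Iic (-a)) := by
    have hsk1 := par_sym ν hs (k + 1)
    have := sym_real hsk1 (A := Ici a) measurableSet_Ici
    have e : (fun x : ℝ => -x) ⁻¹' (Ici a) = Iic (-a) := by
      ext t
      simp only [mem_preimage, mem_Ici, mem_Iic]
      constructor <;> intro h <;> linarith
    rw [e] at this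
    rw [this]
    exact q4
  rw [hk]
  have fin : ∀ A : Set ℝ, 1 / 8 ≤ (par ν (k + 1)).real A → (∀ t ∈ A, a ≤ |x + t|) →
      1 / 8 * (1 / 8) ^ B ≤ ((par ν (k + 1)).prod (par ν B)).real {z | |z.2| ≤ |x + z.1|} := by
    intro A hA hA'
    calc 1 / 8 * (1 / 8) ^ B ≤ (par ν (k + 1)).real A * (par ν B).real (Icc (-a) a) :=
          mul_le_mul hA (q3 B) (by positivity) measureReal_nonneg
      _ = ((par ν (k + 1)).prod (par ν B)).real (A ×ˢ Icc (-a) a) := (measureReal_prod_prod _ _).symm
      _ ≤ _ := by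
          refine measureReal_mono ?_ (measure_ne_top _ _)
          rintro ⟨t, s⟩ ⟨ht, hs'⟩
          have e1 : |s| ≤ a := abs_le.2 hs'
          exact le_trans e1 (hA' t ht)
  rcases le_total 0 x with hx | hx
  · refine fin (Ici a) q4 fun t ht => ?_
    rw [mem_Ici] at ht
    rw [abs_of_nonneg (by linarith)]
    linarith
  · refine fin (Iic (-a)) q5 fun t ht => ?_
    rw [mem_Iic] at ht
    rw [abs_of_nonpos (by linarith)]
    linarith

end Pool.Agent.Q137.HEA.CB
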