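import Pool.Agent.Q291.HEA.Stm3
import Pool.Agent.Q102.HEA.DEC
import Pool.Agent.Q150.HEA.HFIN

/-!
Geometry of the cells (helpers for the jobs DECZ, GSU, EVEN, TWO of project HEA).
-/

set_option autoImplicit false

namespace Pool.Agent.Q137.HEA

open MeasureTheory Filter Topology Set Pool.Agent.Q291.HEA Pool.Agent.Q102.HEA.DEC

variable {B : ℕ} [NeZero B] {e : ℕ → Bool}

theorem hF : P_HFIN := Pool.Agent.Q150.HEA.t_HFIN

theorem hE : P_ENDS := Pool.Agent.Q150.HEA.t_ENDS hF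

theorem mid_notMem_inner (n : ℕ) (i : Fin B) (ω : Bond B e) (p : Pos B) :
    mid n i ω ∉ Q291.HEA.inner n (upd ω n p) := by
  intro h
  have h1 : (mid n i ω).1.1 = n := rfl
  have := h.1
  omega

theorem mid_inj (n : ℕ) (ω : Bond B e) {i j : Fin B} (h : mid n i ω = mid n j ω) : i = j :=
  congrArg (fun v : Site B e => v.1.2.1) h

theorem inner_sub (he : Alt e) (n : ℕ) (ω : Bond B e) (p : Pos B) :
    Q291.HEA.inner n (upd ω n p) ⊆ Q291.HEA.inner (n + 1) ω := by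
  intro v hv
  rw [(hE he n ω 0).2.2.2.2.2.1 v]
  exact Or.inr ⟨p, hv⟩

theorem mid_mem (he : Alt e) (n : ℕ) (ω : Bond B e) (i : Fin B) :
    mid n i ω ∈ Q291.HEA.inner (n + 1) ω := by
  rw [(hE he n ω 0).2.2.2.2.2.1]
  exact Or.inl ⟨i, rfl⟩

theorem lend_notMem (he : Alt e) (n : ℕ) (ω : Bond B e) : lend n ω ∉ Q291.HEA.inner n ω :=
  ((hF he).2.2.2.1 n ω).2.2.1

theorem rend_notMem (he : Alt e) (n : ℕ) (ω : Bond B e) : rend n ω ∉ Q291.HEA.inner n ω :=
  ((hF he).2.2.2.1 n ω).2.2.2.1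

theorem lend_ne_rend (he : Alt e) (n : ℕ) (ω : Bond B e) : lend n ω ≠ rend n ω :=
  ((hF he).2.2.2.1 n ω).2.2.2.2

theorem inner_eq_of_mem {n : ℕ} {ω : Bond B e} {p q : Pos B} {v : Site B e}
    (hv : v ∈ Q291.HEA.inner n (upd ω n p)) (hv' : v ∈ Q291.HEA.inner n (upd ω n q)) : p = q := by
  have h1 := hv.2 n le_rfl
  have h2 := hv'.2 n le_rfl
  simp only [upd, Function.update_self] at h1 h2
  rw [← h1, ← h2]

theorem lend_sub_notMem (he : Alt e) (n : ℕ) (ω : Bond B e) (p q : Pos B) :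
    lend n (upd ω n p) ∉ Q291.HEA.inner n (upd ω n q) := by
  obtain ⟨i, s⟩ := p
  obtain ⟨h1, h2, h3, h4, -⟩ := hE he n ω i
  cases s
  · rw [h1]
    exact fun h => lend_notMem he (n + 1) ω (inner_sub he n ω q h)
  · rw [h3]
    exact mid_notMem_inner n i ω q

theorem rend_sub_notMem (he : Alt e) (n : ℕ) (ω : Bond B e) (p q : Pos B) :
    rend n (upd ω n p) ∉ Q291.HEA.inner n (upd ω n q) := by
  obtain ⟨i, s⟩ := p
  obtain ⟨h1, h2, h3, h4, -⟩ := hE he n ω i
  cases s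
  · rw [h2]
    exact mid_notMem_inner n i ω q
  · rw [h4]
    exact fun h => rend_notMem he (n + 1) ω (inner_sub he n ω q h)

theorem en_split (he : Alt e) (K : Bond B e → ℝ) (n : ℕ) (ω : Bond B e) (τ : Site B e → Bool) :
    en K (n + 1) ω τ = ∑ i : Fin B, (en K n (upd ω n (i, true)) τ + en K n (upd ω n (i, false)) τ) := by
  rw [cell_split hF hE he, Fintype.sum_prod_type]
  exact Finset.sum_congr rfl fun i _ => Fintype.sum_bool _

theorem en_congr (he : Alt e) (K : Bond B e → ℝ) (n : ℕ) (ω : Bond B e) {σ τ : Site B e → Bool}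
    (h : ∀ v ∈ Q291.HEA.inner n ω, σ v = τ v) (h1 : σ (lend n ω) = τ (lend n ω))
    (h2 : σ (rend n ω) = τ (rend n ω)) : en K n ω σ = en K n ω τ := by
  refine Real.exp_injective (en_dep hE he K n ω σ τ ?_)
  rintro v (hv | hv | hv)
  · exact h v hv
  · rw [hv]; exact h1
  · rw [hv]; exact h2

theorem F0_cases (x y a b : ℝ) (ha : a = 1 ∨ a = -1) (hb : b = 1 ∨ b = -1) :
    |x * a + y * b| = (|x + y| + |x - y|) / 2 + F0 x y * (a * b) := by
  unfold F0
  rcases ha with rfl | rfl <;> rcases hb with rfl | rfl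
  · rw [show x * 1 + y * 1 = x + y by ring]; ring
  · rw [show x * 1 + y * -1 = x - y by ring]; ring
  · rw [show x * -1 + y * 1 = -(x - y) by ring, abs_neg]; ring
  · rw [show x * -1 + y * -1 = -(x + y) by ring, abs_neg]; ring

end Pool.Agent.Q137.HEA
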