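import Pool.Agent.Q137.HEA.Cells

/-!
Job DECZ of project HEA (helper291): decimation at zero temperature.
-/

set_option autoImplicit false

namespace Pool.Agent.Q137.HEA.DECZ

open MeasureTheory Filter Topology Set Pool.Agent.Q291.HEA Pool.Agent.Q102.HEA.DEC
open Pool.Agent.Q137.HEA

variable {B : ℕ} [NeZero B] {e : ℕ → Bool}

theorem decz (he : Alt e) (K : Bond B e → ℝ) (n : ℕ) : ∀ (ω : Bond B e), ∃ A : ℝ,
    (∀ σ : Site B e → Bool, en K n ω σ ≤
      A + effG F0 K n ω * (sgn (σ (lend n ω)) * sgn (σ (rend n ω)))) ∧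
    ∀ σ : Site B e → Bool, ∃ σ' : Site B e → Bool,
      (∀ v, v ∉ Q291.HEA.inner n ω → σ' v = σ v) ∧
      en K n ω σ' = A + effG F0 K n ω * (sgn (σ (lend n ω)) * sgn (σ (rend n ω))) := by
  classical
  induction n with
  | zero =>
    intro ω
    have h1 : cellb 0 ω = {ω} := by
      ext b
      rw [Set.mem_singleton_iff]
      constructor
      · intro hb
        apply Subtype.ext
        funext k
        exact hb k (Nat.zero_le k)
      · rintro rfl k _
        rfl
    have h2 : ∀ σ : Site B e → Bool, en K 0 ω σ =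
        0 + effG F0 K 0 ω * (sgn (σ (lend 0 ω)) * sgn (σ (rend 0 ω))) := by
      intro σ
      unfold en
      rw [h1, finsum_mem_singleton, zero_add]
      rfl
    exact ⟨0, fun σ => (h2 σ).le, fun σ => ⟨σ, fun _ _ => rfl, h2 σ⟩⟩
  | succ n ih =>
    intro ω
    choose A hA1 hA2 using fun p : Pos B => ih (upd ω n p)
    obtain ⟨x, hx⟩ : ∃ x : Fin B → ℝ, x = fun i => effG F0 K n (upd ω n (i, false)) := ⟨_, rfl⟩
    obtain ⟨y, hy⟩ : ∃ y : Fin B → ℝ, y = fun i => effG F0 K n (upd ω n (i, true)) := ⟨_, rfl⟩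
    have heff : effG F0 K (n + 1) ω = ∑ i : Fin B, F0 (x i) (y i) := by rw [hx, hy]; rfl
    have ends : ∀ (i : Fin B), lend n (upd ω n (i, false)) = lend (n + 1) ω ∧
        rend n (upd ω n (i, false)) = mid n i ω ∧ lend n (upd ω n (i, true)) = mid n i ω ∧
        rend n (upd ω n (i, true)) = rend (n + 1) ω := by
      intro i
      obtain ⟨h1, h2, h3, h4, -⟩ := hE he n ω i
      exact ⟨h1, h2, h3, h4⟩
    have key : ∀ (σ : Site B e → Bool) (i : Fin B),
        (A (i, true) + y i * (sgn (σ (mid n i ω)) * sgn (σ (rend (n + 1) ω)))) +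
          (A (i, false) + x i * (sgn (σ (lend (n + 1) ω)) * sgn (σ (mid n i ω)))) =
        (A (i, false) + A (i, true)) + sgn (σ (mid n i ω)) *
          (x i * sgn (σ (lend (n + 1) ω)) + y i * sgn (σ (rend (n + 1) ω))) := fun σ i => by ring
    have tot : ∀ σ : Site B e → Bool, ∑ i : Fin B, ((A (i, false) + A (i, true)) +
        |x i * sgn (σ (lend (n + 1) ω)) + y i * sgn (σ (rend (n + 1) ω))|) =
        ∑ i : Fin B, ((A (i, false) + A (i, true)) + (|x i + y i| + |x i - y i|) / 2) +
          effG F0 K (n + 1) ω * (sgn (σ (lend (n + 1) ω)) * sgn (σ (rend (n + 1) ω))) := by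
      intro σ
      rw [heff, Finset.sum_mul, ← Finset.sum_add_distrib]
      refine Finset.sum_congr rfl fun i _ => ?_
      rw [F0_cases _ _ _ _ (sgn_sq _) (sgn_sq _)]
      ring
    refine ⟨∑ i : Fin B, ((A (i, false) + A (i, true)) + (|x i + y i| + |x i - y i|) / 2), ?_, ?_⟩
    · intro σ
      rw [← tot, en_split he]
      refine Finset.sum_le_sum fun i _ => ?_
      obtain ⟨h1, h2, h3, h4⟩ := ends i
      have a1 := hA1 (i, true) σ
      have a2 := hA1 (i, false) σ
      rw [h3, h4] at a1
      rw [h1, h2] at a2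
      have a3 := key σ i
      have hx' : effG F0 K n (upd ω n (i, false)) = x i := by rw [hx]
      have hy' : effG F0 K n (upd ω n (i, true)) = y i := by rw [hy]
      rw [hy'] at a1
      rw [hx'] at a2
      have a4 : sgn (σ (mid n i ω)) * (x i * sgn (σ (lend (n + 1) ω)) +
          y i * sgn (σ (rend (n + 1) ω))) ≤
          |x i * sgn (σ (lend (n + 1) ω)) + y i * sgn (σ (rend (n + 1) ω))| := by
        rcases sgn_sq (σ (mid n i ω)) with h | h
        · rw [h, one_mul]; exact le_abs_self _
        · rw [h, neg_one_mul]; exact neg_le_abs _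
      calc _ ≤ _ := add_le_add a1 a2
        _ = _ := a3
        _ ≤ _ := add_le_add le_rfl a4
    · intro σ
      -- the middle spins
      obtain ⟨σ1, hσ1⟩ : ∃ σ1 : Site B e → Bool, σ1 = fun v =>
          if h : ∃ i, v = mid n i ω then
            decide (0 ≤ x h.choose * sgn (σ (lend (n + 1) ω)) +
              y h.choose * sgn (σ (rend (n + 1) ω))) else σ v := ⟨_, rfl⟩
      have s1m : ∀ i, σ1 (mid n i ω) = decide (0 ≤ x i * sgn (σ (lend (n + 1) ω)) +
          y i * sgn (σ (rend (n + 1) ω))) := by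
        intro i
        have hex : ∃ j, mid n i ω = mid n j ω := ⟨i, rfl⟩
        have hch : hex.choose = i := (mid_inj n ω hex.choose_spec).symm
        rw [hσ1]
        simp only [dif_pos hex, hch]
      have s1o : ∀ v, (∀ i, v ≠ mid n i ω) → σ1 v = σ v := by
        intro v hv
        rw [hσ1]
        simp only [dif_neg (fun h : ∃ i, v = mid n i ω => hv h.choose h.choose_spec)]
      have s1l : σ1 (lend (n + 1) ω) = σ (lend (n + 1) ω) := s1o _ fun i h =>
        lend_notMem he (n + 1) ω (h ▸ mid_mem he n ω i)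
      have s1r : σ1 (rend (n + 1) ω) = σ (rend (n + 1) ω) := s1o _ fun i h =>
        rend_notMem he (n + 1) ω (h ▸ mid_mem he n ω i)
      choose σp hp1 hp2 using fun p : Pos B => hA2 p σ1
      obtain ⟨σ', hσ'⟩ : ∃ σ' : Site B e → Bool, σ' = fun v =>
          if h : ∃ p, v ∈ Q291.HEA.inner n (upd ω n p) then σp h.choose v else σ1 v := ⟨_, rfl⟩
      have s2m : ∀ p, ∀ v ∈ Q291.HEA.inner n (upd ω n p), σ' v = σp p v := by
        intro p v hv
        have hex : ∃ q, v ∈ Q291.HEA.inner n (upd ω n q) := ⟨p, hv⟩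
        have hch : hex.choose = p := inner_eq_of_mem hex.choose_spec hv
        rw [hσ']
        simp only [dif_pos hex, hch]
      have s2o : ∀ v, (∀ p, v ∉ Q291.HEA.inner n (upd ω n p)) → σ' v = σ1 v := by
        intro v hv
        rw [hσ']
        simp only [dif_neg (fun h : ∃ p, v ∈ Q291.HEA.inner n (upd ω n p) =>
          hv h.choose h.choose_spec)]
      refine ⟨σ', ?_, ?_⟩
      · intro v hv
        rw [s2o v fun p h => hv (inner_sub he n ω p h),
          s1o v fun i h => hv (h ▸ mid_mem he n ω i)]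
      · rw [← tot, en_split he]
        refine Finset.sum_congr rfl fun i _ => ?_
        have c : ∀ p : Pos B, en K n (upd ω n p) σ' = en K n (upd ω n p) (σp p) := by
          intro p
          apply en_congr he K n _ (s2m p)
          · rw [s2o _ fun q => lend_sub_notMem he n ω p q, hp1 p _ (lend_sub_notMem he n ω p p)]
          · rw [s2o _ fun q => rend_sub_notMem he n ω p q, hp1 p _ (rend_sub_notMem he n ω p p)]
        obtain ⟨h1, h2, h3, h4⟩ := ends i
        have a1 := hp2 (i, true)
        have a2 := hp2 (i, false)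
        rw [h3, h4, s1r] at a1
        rw [h1, h2, s1l] at a2
        rw [c, c, a1, a2]
        have hx' : effG F0 K n (upd ω n (i, false)) = x i := by rw [hx]
        have hy' : effG F0 K n (upd ω n (i, true)) = y i := by rw [hy]
        rw [hx', hy', s1m]
        by_cases hs : 0 ≤ x i * sgn (σ (lend (n + 1) ω)) + y i * sgn (σ (rend (n + 1) ω))
        · rw [decide_eq_true hs, abs_of_nonneg hs]
          have : sgn true = 1 := by simp [sgn]
          rw [this]; ring
        · rw [decide_eq_false hs, abs_of_neg (not_le.1 hs)]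
          have : sgn false = -1 := by simp [sgn]
          rw [this]; ring

theorem t_DECZ : P_DECZ := fun he K n ω => decz he K n ω

end Pool.Agent.Q137.HEA.DECZ
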