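import Pool.Agent.Q137.HEA.Lam

/-! # Project HEA, job EVEN: Gibbs states agree on the even events -/

set_option autoImplicit false

namespace Pool.Agent.Q137.HEA.EVEN

open MeasureTheory Filter Topology Set Pool.Agent.Q291.HEA
open Pool.Agent.Q261.HEA (flp meas_flp fv_flp meas_fv int_fv fv_nonneg fv_le ext_cyl cyl_clopen)
open Pool.Agent.Q137.HEA.Lam

variable {B : ℕ} [NeZero B] {e : ℕ → Bool}

/-- even events -/
def Ev (A : Set (Site B e → Bool)) : Prop :=
  ∀ η : Site B e → Bool, η ∈ A ↔ (fun v => !(η v)) ∈ A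

theorem fv_even (hA : Alt e) (K : Bond B e → ℝ) (n : ℕ) {A : Set (Site B e → Bool)} (h : Ev A)
    (σ : Site B e → Bool) : fv hA K n (flp σ) A = fv hA K n σ A := by
  unfold fv
  rw [fv_flp]
  congr 1
  ext η
  exact (h η).symm

theorem fv_even_dep (hA : Alt e) (K : Bond B e → ℝ) {n : ℕ} {A : Set (Site B e → Bool)}
    (h : Ev A) (hd : DepOn hA n A) (σ σ' : Site B e → Bool)
    (h1 : σ (lend n orig) = σ (rend n orig) ↔ σ' (lend n orig) = σ' (rend n orig)) :
    fv hA K n σ A = fv hA K n σ' A := by
  by_cases h2 : σ (lend n orig) = σ' (lend n orig)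
  · refine fv_dep hA K hd h2 ?_
    rw [h2] at h1
    revert h1
    cases σ (rend n orig) <;> cases σ' (rend n orig) <;> cases σ' (lend n orig) <;> simp
  · rw [← fv_even hA K n h σ]
    refine fv_dep hA K hd ?_ ?_
    · show (!(σ (lend n orig))) = _
      revert h2
      cases σ (lend n orig) <;> cases σ' (lend n orig) <;> simp
    · show (!(σ (rend n orig))) = _
      revert h1 h2
      cases σ (rend n orig) <;> cases σ' (rend n orig) <;> cases σ' (lend n orig) <;>
        cases σ (lend n orig) <;> simp

theorem tanh_diff {x y : ℝ} (h : |y| ≤ |x|) : |Real.tanh (x + y) - Real.tanh (x - y)| ≤ 1 := by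
  have key : ∀ a b : ℝ, 0 ≤ a → 0 ≤ b → |Real.tanh a - Real.tanh b| ≤ 1 := by
    intro a b ha hb
    have h1 := Pool.Agent.Q111.HEA.tanh_nonneg ha
    have h2 := Pool.Agent.Q111.HEA.tanh_nonneg hb
    have h3 := Real.tanh_lt_one a
    have h4 := Real.tanh_lt_one b
    rw [abs_le]
    constructor <;> linarith
  rcases le_total 0 x with hx | hx
  · rw [abs_of_nonneg hx, abs_le] at h
    exact key _ _ (by linarith) (by linarith)
  · rw [abs_of_nonpos hx, abs_le] at h
    have := key (-(x + y)) (-(x - y)) (by linarith) (by linarith)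
    rw [Real.tanh_neg, Real.tanh_neg, ← abs_neg] at this
    have e1 : -(-Real.tanh (x + y) - -Real.tanh (x - y)) =
      Real.tanh (x + y) - Real.tanh (x - y) := by ring
    rw [e1] at this
    exact this

open Classical in
/-- the configuration with value `true` except perhaps at the right end -/
noncomputable def cf (n : ℕ) (b : Bool) : Site B e → Bool :=
  Function.update (fun _ => true) (rend n orig) b

open Classical in
theorem cf_lend (hA : Alt e) (n : ℕ) (b : Bool) : cf (B := B) (e := e) n b (lend n orig) = true := by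
  unfold cf
  exact Function.update_of_ne (ne_ends hA n) _ _

open Classical in
theorem cf_rend (n : ℕ) (b : Bool) : cf (B := B) (e := e) n b (rend n orig) = b := by
  unfold cf
  exact Function.update_self _ _ _

open Classical in
theorem fv_cases (hA : Alt e) (K : Bond B e → ℝ) {n : ℕ} {A : Set (Site B e → Bool)}
    (h : Ev A) (hd : DepOn hA n A) (σ : Site B e → Bool) :
    fv hA K n σ A = if σ (lend n orig) = σ (rend n orig) then fv hA K n (cf n true) A
      else fv hA K n (cf n false) A := by
  split_ifs with h1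
  · refine fv_even_dep hA K h hd _ _ ?_
    rw [cf_lend hA, cf_rend]
    simp [h1]
  · refine fv_even_dep hA K h hd _ _ ?_
    rw [cf_lend hA, cf_rend]
    simp [h1]

theorem step_eq (hA : Alt e) (K : Bond B e → ℝ) {n : ℕ} {A : Set (Site B e → Bool)}
    (hAm : MeasurableSet A) (h : Ev A) (hd : DepOn hA n A) :
    fv hA K (n + 1) (cf (n + 1) true) A - fv hA K (n + 1) (cf (n + 1) false) A =
      (Real.tanh (eff K n orig + eff K n (sib n)) - Real.tanh (eff K n orig - eff K n (sib n))) /
        2 * (fv hA K n (cf n true) A - fv hA K n (cf n false) A) := by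
  classical
  have s1 : sgn true = 1 := rfl
  have s2 : sgn false = -1 := rfl
  rw [fv_step hA K hAm hd (cf (n + 1) true), fv_step hA K hAm hd (cf (n + 1) false)]
  simp only [cf_lend hA, cf_rend, s1, s2]
  rw [fv_cases hA K h hd (Function.update (cf (n + 1) true) (mid n 0 orig) true),
    fv_cases hA K h hd (Function.update (cf (n + 1) true) (mid n 0 orig) false),
    fv_cases hA K h hd (Function.update (cf (n + 1) false) (mid n 0 orig) true),
    fv_cases hA K h hd (Function.update (cf (n + 1) false) (mid n 0 orig) false)]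
  have hne := ne_ends (B := B) hA n
  cases he : e n with
  | false =>
    obtain ⟨k1, k2⟩ := own_sib_false K he
    obtain ⟨e1, e2⟩ := Pool.Agent.Q111.HEA.ends_false (B := B) hends hA n he
    rw [e2] at hne
    rw [e2, Function.update_of_ne hne, Function.update_of_ne hne, Function.update_of_ne hne,
      Function.update_of_ne hne, Function.update_self, Function.update_self,
      Function.update_self, Function.update_self, e1, cf_lend hA, cf_lend hA, k1, k2]
    simp only [if_true, Bool.true_eq_false, if_false]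
    rw [show eff K n orig * 1 + eff K n (sib n) * 1 = eff K n orig + eff K n (sib n) by ring,
      show eff K n orig * 1 + eff K n (sib n) * -1 = eff K n orig - eff K n (sib n) by ring]
    ring
  | true =>
    obtain ⟨k1, k2⟩ := own_sib_true K he
    obtain ⟨e1, e2⟩ := Pool.Agent.Q111.HEA.ends_true (B := B) hends hA n he
    rw [e1] at hne
    rw [e1, Function.update_of_ne hne.symm, Function.update_of_ne hne.symm,
      Function.update_of_ne hne.symm, Function.update_of_ne hne.symm, Function.update_self,
      Function.update_self, Function.update_self, Function.update_self, e2, cf_rend, cf_rend,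
      k1, k2]
    simp only [if_true, Bool.true_eq_false, Bool.false_eq_true, if_false]
    rw [show eff K n (sib n) * 1 + eff K n orig * 1 = eff K n orig + eff K n (sib n) by ring,
      show eff K n (sib n) * 1 + eff K n orig * -1 = -(eff K n orig - eff K n (sib n)) by ring,
      Real.tanh_neg]
    ring

theorem osc_small (hA : Alt e) (K : Bond B e → ℝ)
    (hfr : ∃ᶠ n in atTop, |eff K n (sib n)| ≤ |eff K n orig|) {m : ℕ}
    {A : Set (Site B e → Bool)} (hAm : MeasurableSet A) (h : Ev A) (hd : DepOn hA m A) (ε : ℝ)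
    (hε : 0 < ε) : ∃ n, m ≤ n ∧ ∀ σ, |fv hA K n σ A - fv hA K n (cf n true) A| ≤ ε := by
  obtain ⟨D, hD⟩ : ∃ D : ℕ → ℝ, ∀ n, D n =
      |fv hA K n (cf n true) A - fv hA K n (cf n false) A| := ⟨_, fun _ => rfl⟩
  have hD0 : ∀ n, 0 ≤ D n := fun n => by rw [hD]; exact abs_nonneg _
  have d1 : ∀ n, m ≤ n → D (n + 1) ≤ D n := by
    intro n hn
    rw [hD, hD, step_eq hA K hAm h (hd.mono hn), abs_mul]
    refine mul_le_of_le_one_left (abs_nonneg _) ?_
    have a1 := Pool.Agent.Q111.HEA.abs_tanh_le_one (eff K n orig + eff K n (sib n))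
    have a2 := Pool.Agent.Q111.HEA.abs_tanh_le_one (eff K n orig - eff K n (sib n))
    rw [abs_le] at a1 a2 ⊢
    constructor <;> linarith
  have d2 : ∀ n, m ≤ n → |eff K n (sib n)| ≤ |eff K n orig| → D (n + 1) ≤ 1 / 2 * D n := by
    intro n hn hs
    rw [hD, hD, step_eq hA K hAm h (hd.mono hn), abs_mul]
    refine mul_le_mul_of_nonneg_right ?_ (abs_nonneg _)
    rw [abs_div, abs_two]
    have := tanh_diff hs
    linarith
  have d3 : ∀ k n, m ≤ n → D (n + k) ≤ D n := by
    intro k
    induction k with
    | zero => intro n _; exact le_rfl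
    | succ k ih => intro n hn; exact (d1 (n + k) (by omega)).trans (ih n hn)
  have d4 : ∀ k : ℕ, ∃ n, m ≤ n ∧ D n ≤ (1 / 2) ^ k * D m := by
    intro k
    induction k with
    | zero => exact ⟨m, le_rfl, by simp⟩
    | succ k ih =>
      obtain ⟨n, hn, h1⟩ := ih
      obtain ⟨p, hp, h2⟩ := frequently_atTop.1 hfr n
      refine ⟨p + 1, by omega, (d2 p (by omega) h2).trans ?_⟩
      obtain ⟨q, rfl⟩ := Nat.exists_eq_add_of_le hp
      have h3 := d3 q n hn
      rw [pow_succ]
      linarith
  obtain ⟨k, hk⟩ := exists_pow_lt_of_lt_one (show 0 < ε / (D m + 1) by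
    have := hD0 m
    positivity) (show (1 / 2 : ℝ) < 1 by norm_num)
  obtain ⟨n, hn, h1⟩ := d4 k
  have h2 : D n ≤ ε := by
    have h3 := hD0 m
    have h4 : (1 / 2 : ℝ) ^ k * D m ≤ ε / (D m + 1) * D m :=
      mul_le_mul_of_nonneg_right hk.le h3
    have h5 : ε / (D m + 1) * D m ≤ ε := by
      rw [div_mul_eq_mul_div, div_le_iff₀ (by linarith)]
      nlinarith
    linarith
  refine ⟨n, hn, fun σ => ?_⟩
  classical
  rw [fv_cases hA K h (hd.mono hn) σ]
  split_ifs
  · rw [sub_self, abs_zero]
    exact hε.le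
  · rw [← abs_neg, neg_sub, ← hD]
    exact h2

/-- equality on the even events which depend on finitely many spins -/
theorem eq_local (hA : Alt e) (K : Bond B e → ℝ)
    (hfr : ∃ᶠ n in atTop, |eff K n (sib n)| ≤ |eff K n orig|)
    {π π' : Measure (Site B e → Bool)} (hπ : IsGibbs (lend 0) (rend 0) K π)
    (hπ' : IsGibbs (lend 0) (rend 0) K π') {m : ℕ}
    {A : Set (Site B e → Bool)} (hAm : MeasurableSet A) (h : Ev A) (hd : DepOn hA m A) :
    π.real A = π'.real A := by
  have key : ∀ ε : ℝ, 0 < ε → |π.real A - π'.real A| ≤ ε := by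
    intro ε hε
    obtain ⟨n, _, hn⟩ := osc_small hA K hfr hAm h hd (ε / 2) (by linarith)
    have h1 := fv_near hA K hπ n hAm _ _ hn
    have h2 := fv_near hA K hπ' n hAm _ _ hn
    rw [abs_le] at h1 h2 ⊢
    constructor <;> linarith [h1.1, h1.2, h2.1, h2.2]
  have h0 : |π.real A - π'.real A| ≤ 0 := by
    refine le_of_forall_pos_le_add fun ε hε => ?_
    have := key ε hε
    linarith
  exact sub_eq_zero.1 (abs_eq_zero.1 (le_antisymm h0 (abs_nonneg _)))

/-- the normalisation at the site `v0` -/
def nrm (v0 : Site B e) (σ : Site B e → Bool) (v : Site B e) : Bool := σ v0 == σ v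

theorem meas_nrm (v0 : Site B e) : Measurable (nrm v0) := by
  refine measurable_pi_lambda _ fun v => ?_
  have h1 : Measurable (fun p : Bool × Bool => p.1 == p.2) := measurable_of_finite _
  have h2 : Measurable (fun σ : Site B e → Bool => (σ v0, σ v)) :=
    (measurable_pi_apply v0).prodMk (measurable_pi_apply v)
  exact h1.comp h2

theorem nrm_flip (v0 : Site B e) (σ : Site B e → Bool) :
    nrm v0 (fun v => !(σ v)) = nrm v0 σ := by
  funext v
  show ((!(σ v0)) == (!(σ v))) = (σ v0 == σ v)
  cases σ v0 <;> cases σ v <;> rfl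

theorem nrm_pre (v0 : Site B e) {A : Set (Site B e → Bool)} (h : Ev A) : nrm v0 ⁻¹' A = A := by
  ext σ
  rw [mem_preimage]
  cases h0 : σ v0 with
  | true =>
    have : nrm v0 σ = σ := by
      funext v
      unfold nrm
      rw [h0]
      cases σ v <;> rfl
    rw [this]
  | false =>
    have : nrm v0 σ = fun v => !(σ v) := by
      funext v
      unfold nrm
      rw [h0]
      cases σ v <;> rfl
    rw [this]
    exact (h σ).symm

/-- **EVEN** -/
theorem t_EVEN : P_EVEN := by
  intro B _ e hA K hfr π π' hπ hπ' A hAm h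
  have c2 := (@hfin B _ e hA).2.1
  have p1 := hπ.1
  have p2 := hπ'.1
  obtain ⟨v0, hv0⟩ : ∃ v0 : Site B e, v0 = mid 0 0 orig := ⟨_, rfl⟩
  have hq : π.map (nrm v0) = π'.map (nrm v0) := by
    have i1 := Measure.isProbabilityMeasure_map (μ := π) (meas_nrm v0).aemeasurable
    have i2 := Measure.isProbabilityMeasure_map (μ := π') (meas_nrm v0).aemeasurable
    refine ext_cyl fun C hC => ?_
    have hCm : MeasurableSet C := MeasurableSet.of_mem_measurableCylinders hC
    rw [map_measureReal_apply (meas_nrm v0) hCm, map_measureReal_apply (meas_nrm v0) hCm]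
    obtain ⟨m, hm⟩ := cyl_dep hA hC
    obtain ⟨k, hk⟩ := Lm_ex hA v0
    refine eq_local hA K hfr hπ hπ' (m := max m k) (meas_nrm v0 hCm) ?_ ?_
    · intro η
      rw [mem_preimage, mem_preimage, nrm_flip]
    · intro η η' H
      rw [mem_preimage, mem_preimage]
      refine hm _ _ fun v hv => ?_
      unfold nrm
      rw [H v0 (Lm_mono hA (le_max_right m k) hk), H v (Lm_mono hA (le_max_left m k) hv)]
  have h1 : π.real A = (π.map (nrm v0)).real A := by
    rw [map_measureReal_apply (meas_nrm v0) hAm, nrm_pre v0 h]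
  have h2 : π'.real A = (π'.map (nrm v0)).real A := by
    rw [map_measureReal_apply (meas_nrm v0) hAm, nrm_pre v0 h]
  rw [h1, h2, hq]

end Pool.Agent.Q137.HEA.EVEN
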