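import Pool.Agent.Q137.HEA.Cells

/-!
Job GSU of project HEA (helper291): uniqueness of the pair of ground states.
-/

set_option autoImplicit false

namespace Pool.Agent.Q137.HEA.GSU

open MeasureTheory Filter Topology Set Pool.Agent.Q291.HEA Pool.Agent.Q102.HEA.DEC
open Pool.Agent.Q137.HEA

variable {B : ℕ} [NeZero B] {e : ℕ → Bool}

/-! ## Signed sums -/

/-- `z` is a nonempty signed sum of couplings of `C` -/
def SS (K : Bond B e → ℝ) (C : Set (Bond B e)) (z : ℝ) : Prop :=
  ∃ (S : Finset (Bond B e)) (s : Bond B e → Bool), (∀ b ∈ S, b ∈ C) ∧ S.Nonempty ∧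
    z = ∑ b ∈ S, sgn (s b) * K b

theorem sgn_not (s : Bool) : sgn (!s) = -sgn s := by
  cases s <;> simp [sgn]

theorem SS.neg {K : Bond B e → ℝ} {C : Set (Bond B e)} {z : ℝ} (h : SS K C z) : SS K C (-z) := by
  obtain ⟨S, s, h1, h2, h3⟩ := h
  refine ⟨S, fun b => !(s b), h1, h2, ?_⟩
  rw [h3, ← Finset.sum_neg_distrib]
  refine Finset.sum_congr rfl fun b _ => ?_
  rw [sgn_not]; ring

theorem SS.mono {K : Bond B e → ℝ} {C D : Set (Bond B e)} {z : ℝ} (h : SS K C z) (hCD : C ⊆ D) :
    SS K D z := by
  obtain ⟨S, s, h1, h2, h3⟩ := h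
  exact ⟨S, s, fun b hb => hCD (h1 b hb), h2, h3⟩

theorem SS.sum {K : Bond B e → ℝ} {ι : Type} [DecidableEq ι] (P : Finset ι) (hP : P.Nonempty)
    (C : ι → Set (Bond B e)) (z : ι → ℝ) (h : ∀ i, SS K (C i) (z i))
    (hd : ∀ i j b, b ∈ C i → b ∈ C j → i = j) : SS K (⋃ i, C i) (∑ i ∈ P, z i) := by
  classical
  choose S s h1 h2 h3 using h
  obtain ⟨i0, hi0⟩ := hP
  refine ⟨P.biUnion S, fun b => if hb : ∃ i, b ∈ C i then s hb.choose b else true, ?_, ?_, ?_⟩
  · intro b hb
    rw [Finset.mem_biUnion] at hb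
    obtain ⟨i, _, hi⟩ := hb
    exact mem_iUnion.2 ⟨i, h1 i b hi⟩
  · obtain ⟨b, hb⟩ := h2 i0
    exact ⟨b, Finset.mem_biUnion.2 ⟨i0, hi0, hb⟩⟩
  · rw [Finset.sum_biUnion]
    · refine Finset.sum_congr rfl fun i _ => ?_
      rw [h3 i]
      refine Finset.sum_congr rfl fun b hb => ?_
      have hex : ∃ j, b ∈ C j := ⟨i, h1 i b hb⟩
      have : hex.choose = i := hd _ _ b hex.choose_spec (h1 i b hb)
      simp only [dif_pos hex, this]
    · intro i _ j _ hij
      rw [Function.onFun, Finset.disjoint_left]
      intro b hb hb'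
      exact hij (hd i j b (h1 i b hb) (h1 j b hb'))

theorem SS.add {K : Bond B e → ℝ} {C D : Set (Bond B e)} {z w : ℝ} (hz : SS K C z) (hw : SS K D w)
    (hd : Disjoint C D) : SS K (C ∪ D) (z + w) := by
  have h := SS.sum (K := K) (ι := Bool) Finset.univ ⟨true, Finset.mem_univ _⟩
    (fun i => if i then C else D) (fun i => if i then z else w) (fun i => by
      cases i
      · simpa using hw
      · simpa using hz) (fun i j b hi hj => by
      cases i <;> cases j <;> simp at hi hj ⊢
      · exact Set.disjoint_left.1 hd hj hi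
      · exact Set.disjoint_left.1 hd hi hj)
  rw [Fintype.sum_bool] at h
  refine (show SS K (⋃ i : Bool, if i then C else D) (z + w) from by simpa using h).mono ?_
  intro b hb
  rw [mem_iUnion] at hb
  obtain ⟨i, hi⟩ := hb
  cases i
  · right; simpa using hi
  · left; simpa using hi

theorem F0_values (x y : ℝ) : F0 x y = x ∨ F0 x y = -x ∨ F0 x y = y ∨ F0 x y = -y := by
  unfold F0
  rcases abs_cases (x + y) with ⟨h1, _⟩ | ⟨h1, _⟩ <;> rcases abs_cases (x - y) with ⟨h2, _⟩ | ⟨h2, _⟩
  · right; right; left; rw [h1, h2]; ring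
  · left; rw [h1, h2]; ring
  · right; left; rw [h1, h2]; ring
  · right; right; right; rw [h1, h2]; ring

theorem cellb_disj {n : ℕ} {ω : Bond B e} {p q : Pos B} {b : Bond B e}
    (hb : b ∈ cellb n (upd ω n p)) (hb' : b ∈ cellb n (upd ω n q)) : p = q := by
  have h1 := hb n le_rfl
  have h2 := hb' n le_rfl
  simp only [upd, Function.update_self] at h1 h2
  rw [← h1, ← h2]

theorem effG_SS (he : Alt e) (K : Bond B e → ℝ) (n : ℕ) : ∀ ω : Bond B e,
    SS K (cellb n ω) (effG F0 K n ω) := by
  induction n with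
  | zero =>
    intro ω
    refine ⟨{ω}, fun _ => true, ?_, Finset.singleton_nonempty ω, ?_⟩
    · intro b hb
      rw [Finset.mem_singleton] at hb
      rw [hb]
      intro k _
      rfl
    · rw [Finset.sum_singleton]
      have : sgn true = 1 := by simp [sgn]
      rw [this, one_mul]
      rfl
  | succ n ih =>
    intro ω
    have h1 : ∀ i : Fin B, SS K (cellb n (upd ω n (i, false)) ∪ cellb n (upd ω n (i, true)))
        (F0 (effG F0 K n (upd ω n (i, false))) (effG F0 K n (upd ω n (i, true)))) := by
      intro i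
      have a1 := ih (upd ω n (i, false))
      have a2 := ih (upd ω n (i, true))
      rcases F0_values (effG F0 K n (upd ω n (i, false))) (effG F0 K n (upd ω n (i, true)))
        with h | h | h | h
      · rw [h]; exact a1.mono subset_union_left
      · rw [h]; exact a1.neg.mono subset_union_left
      · rw [h]; exact a2.mono subset_union_right
      · rw [h]; exact a2.neg.mono subset_union_right
    have h2 := SS.sum (K := K) (Finset.univ : Finset (Fin B)) Finset.univ_nonempty
      (fun i => cellb n (upd ω n (i, false)) ∪ cellb n (upd ω n (i, true))) _ h1 (by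
        rintro i j b (hi | hi) (hj | hj)
        · exact congrArg Prod.fst (cellb_disj hi hj)
        · exact congrArg Prod.fst (cellb_disj hi hj)
        · exact congrArg Prod.fst (cellb_disj hi hj)
        · exact congrArg Prod.fst (cellb_disj hi hj))
    have h3 : effG F0 K (n + 1) ω = ∑ i : Fin B,
        F0 (effG F0 K n (upd ω n (i, false))) (effG F0 K n (upd ω n (i, true))) := rfl
    rw [h3]
    refine h2.mono ?_
    intro b hb
    rw [mem_iUnion] at hb
    obtain ⟨i, hi⟩ := hb
    rw [(hE he n ω 0).2.2.2.2.1 b]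
    rcases hi with hi | hi
    · exact ⟨_, hi⟩
    · exact ⟨_, hi⟩

theorem SS.ne {K : Bond B e → ℝ} (hg : Gen K) {C : Set (Bond B e)} {z : ℝ} (h : SS K C z) :
    z ≠ 0 := by
  obtain ⟨S, s, _, h2, h3⟩ := h
  rw [h3]
  exact hg S s h2

/-! ## Energy differences -/

/-- the local energy difference -/
noncomputable def df (K : Bond B e → ℝ) (σ σ' : Site B e → Bool) (b : Bond B e) : ℝ :=
  K b * (sgn (σ (lend 0 b)) * sgn (σ (rend 0 b)) - sgn (σ' (lend 0 b)) * sgn (σ' (rend 0 b)))

theorem sum_df {K : Bond B e → ℝ} {σ σ' : Site B e → Bool} {C : Set (Bond B e)}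
    (h : ∀ b, b ∉ C → σ' (lend 0 b) = σ (lend 0 b) ∧ σ' (rend 0 b) = σ (rend 0 b)) :
    ∑ᶠ b, df K σ σ' b = ∑ᶠ b ∈ C, df K σ σ' b := by
  rw [finsum_mem_def]
  congr 1
  funext b
  by_cases hb : b ∈ C
  · rw [indicator_of_mem hb]
  · rw [indicator_of_notMem hb, df, (h b hb).1, (h b hb).2, sub_self, mul_zero]

theorem cell_df (he : Alt e) (K : Bond B e → ℝ) (n : ℕ) (ω : Bond B e) (σ σ' : Site B e → Bool) :
    ∑ᶠ b ∈ cellb n ω, df K σ σ' b = en K n ω σ - en K n ω σ' := by
  have hfin := ((hF he).2.2.2.1 n ω).1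
  unfold en
  rw [← finsum_mem_sub_distrib _ _ hfin]
  refine finsum_mem_congr rfl fun b _ => ?_
  rw [df]; ring

theorem ground_flip {V E : Type} {l r : E → V} {K : E → ℝ} {σ : V → Bool}
    (h : IsGround l r K σ) : IsGround l r K (fun v => !(σ v)) := by
  intro σ' hne hfin
  have := h (fun v => !(σ' v)) (fun h => hne (by
    funext v
    have := congrFun h v
    rw [← this]
    simp)) (by
      refine hfin.subset fun v hv hv' => hv ?_
      simp only [hv', Bool.not_not])
  simpa only [sgn_not, neg_mul_neg] using this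

/-- the product of the spins at the ends -/
noncomputable def pe (n : ℕ) (ω : Bond B e) (σ : Site B e → Bool) : ℝ :=
  sgn (σ (lend n ω)) * sgn (σ (rend n ω))

theorem orig_eq (n : ℕ) : (orig : Bond B e) = upd orig n (0, e n) := by
  apply Subtype.ext
  funext k
  change (orig : Bond B e).1 k = Function.update (orig : Bond B e).1 n (0, e n) k
  by_cases hk : k = n
  · subst hk
    rw [Function.update_self]
    rfl
  · rw [Function.update_of_ne hk]

theorem bond_mid (he : Alt e) (n : ℕ) (b : Bond B e)
    (hb : lend 0 b = mid n 0 orig ∨ rend 0 b = mid n 0 orig) :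
    b ∈ cellb n (upd orig n (0, false)) ∪ cellb n (upd orig n (0, true)) := by
  have h1 : b ∈ cellb (n + 1) (orig : Bond B e) := by
    apply (hF he).2.2.2.2.1 (n + 1) orig
    rcases hb with hb | hb
    · left
      change lend 0 b ∈ _
      rw [hb]; exact mid_mem he n orig 0
    · right
      change rend 0 b ∈ _
      rw [hb]; exact mid_mem he n orig 0
  rw [(hE he n orig 0).2.2.2.2.1 b] at h1
  obtain ⟨⟨i, s⟩, hp⟩ := h1
  obtain ⟨e1, e2, e3, e4, -, -, e5⟩ := hE he n (orig : Bond B e) i
  obtain ⟨f1, f2⟩ := (hE he n (upd orig n (i, s)) i).2.2.2.2.2.2 b hp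
  have g1 : ∀ q : Pos B, mid n 0 (orig : Bond B e) ∉ Q291.HEA.inner n (upd orig n q) :=
    fun q => mid_notMem_inner n 0 orig q
  have hl : lend (n + 1) (orig : Bond B e) ≠ mid n 0 orig := fun h =>
    lend_notMem he (n + 1) orig (h ▸ mid_mem he n orig 0)
  have hr : rend (n + 1) (orig : Bond B e) ≠ mid n 0 orig := fun h =>
    rend_notMem he (n + 1) orig (h ▸ mid_mem he n orig 0)
  have key : lend n (upd (orig : Bond B e) n (i, s)) = mid n 0 orig ∨
      rend n (upd (orig : Bond B e) n (i, s)) = mid n 0 orig := by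
    rcases hb with hb | hb
    · rw [hb] at f1
      rcases f1 with f1 | f1
      · left; exact f1.symm
      · exact absurd f1 (g1 _)
    · rw [hb] at f2
      rcases f2 with f2 | f2
      · right; exact f2.symm
      · exact absurd f2 (g1 _)
  have hi : i = 0 := by
    cases s
    · rcases key with h | h
      · rw [e1] at h; exact absurd h hl
      · rw [e2] at h; exact mid_inj n orig h
    · rcases key with h | h
      · rw [e3] at h; exact mid_inj n orig h
      · rw [e4] at h; exact absurd h hr
  subst hi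
  cases s
  · left; exact hp
  · right; exact hp

/-- The own half decides the relative sign of the spins at the ends. -/
theorem sign_own (hD : P_DECZ) (he : Alt e) {K : Bond B e → ℝ} (hg : Gen K) {n : ℕ}
    (hn : |effG F0 K n (sib n)| < |effG F0 K n orig|) {σ : Site B e → Bool}
    (hσ : IsGround (lend 0) (rend 0) K σ) : 0 < effG F0 K n orig * pe n orig σ := by
  classical
  by_contra hcon
  push Not at hcon
  obtain ⟨m, hm⟩ : ∃ m : Site B e, m = mid n 0 orig := ⟨_, rfl⟩
  obtain ⟨e1, e2, e3, e4, -⟩ := hE he n (orig : Bond B e) 0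
  obtain ⟨σ1, hσ1⟩ : ∃ σ1 : Site B e → Bool, σ1 = Function.update σ m (!(σ m)) := ⟨_, rfl⟩
  have s1m : σ1 m = !(σ m) := by rw [hσ1, Function.update_self]
  have s1o : ∀ v, v ≠ m → σ1 v = σ v := fun v hv => by rw [hσ1, Function.update_of_ne hv]
  have hlm : lend (n + 1) (orig : Bond B e) ≠ m := fun h =>
    lend_notMem he (n + 1) orig (h ▸ hm ▸ mid_mem he n orig 0)
  have hrm : rend (n + 1) (orig : Bond B e) ≠ m := fun h =>
    rend_notMem he (n + 1) orig (h ▸ hm ▸ mid_mem he n orig 0)
  choose A hA1 hA2 using fun p : Pos B => hD he K n (upd orig n p)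
  choose σp hp1 hp2 using fun p : Pos B => hA2 p σ1
  obtain ⟨σ', hσ'⟩ : ∃ σ' : Site B e → Bool, σ' = fun v =>
      if v ∈ Q291.HEA.inner n (upd orig n (0, false)) then σp (0, false) v else
      if v ∈ Q291.HEA.inner n (upd orig n (0, true)) then σp (0, true) v else σ1 v := ⟨_, rfl⟩
  have d1 : ∀ v ∈ Q291.HEA.inner n (upd (orig : Bond B e) n (0, false)), σ' v = σp (0, false) v := by
    intro v hv
    rw [hσ']; simp only [if_pos hv]
  have d2 : ∀ v ∈ Q291.HEA.inner n (upd (orig : Bond B e) n (0, true)), σ' v = σp (0, true) v := by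
    intro v hv
    have hv' : v ∉ Q291.HEA.inner n (upd (orig : Bond B e) n (0, false)) := fun h => by
      have := inner_eq_of_mem h hv
      simp at this
    rw [hσ']; simp only [if_neg hv', if_pos hv]
  have d3 : ∀ v, v ∉ Q291.HEA.inner n (upd (orig : Bond B e) n (0, false)) →
      v ∉ Q291.HEA.inner n (upd (orig : Bond B e) n (0, true)) → σ' v = σ1 v := by
    intro v h1 h2
    rw [hσ']; simp only [if_neg h1, if_neg h2]
  have dl : ∀ p : Pos B, σ' (lend n (upd (orig : Bond B e) n p)) = σ1 (lend n (upd orig n p)) :=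
    fun p => d3 _ (lend_sub_notMem he n orig p _) (lend_sub_notMem he n orig p _)
  have dr : ∀ p : Pos B, σ' (rend n (upd (orig : Bond B e) n p)) = σ1 (rend n (upd orig n p)) :=
    fun p => d3 _ (rend_sub_notMem he n orig p _) (rend_sub_notMem he n orig p _)
  have c : ∀ s : Bool, en K n (upd orig n (0, s)) σ' = en K n (upd orig n (0, s)) (σp (0, s)) := by
    intro s
    apply en_congr he K n
    · cases s
      · exact d1
      · exact d2
    · rw [dl, hp1 (0, s) _ (lend_sub_notMem he n orig _ _)]
    · rw [dr, hp1 (0, s) _ (rend_sub_notMem he n orig _ _)]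
  -- the energies
  have b1 : en K n (upd orig n (0, false)) σ ≤ A (0, false) +
      effG F0 K n (upd orig n (0, false)) * (sgn (σ (lend (n + 1) orig)) * sgn (σ m)) := by
    have := hA1 (0, false) σ
    rw [e1, e2, ← hm] at this
    exact this
  have b2 : en K n (upd orig n (0, true)) σ ≤ A (0, true) +
      effG F0 K n (upd orig n (0, true)) * (sgn (σ m) * sgn (σ (rend (n + 1) orig))) := by
    have := hA1 (0, true) σ
    rw [e3, e4, ← hm] at this
    exact this
  have b3 : en K n (upd orig n (0, false)) σ' = A (0, false) -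
      effG F0 K n (upd orig n (0, false)) * (sgn (σ (lend (n + 1) orig)) * sgn (σ m)) := by
    rw [c]
    have := hp2 (0, false)
    rw [e1, e2, ← hm, s1m, s1o _ hlm, sgn_not] at this
    rw [show en K n (upd orig n (0, false)) (σp (0, false)) = _ from this]
    ring
  have b4 : en K n (upd orig n (0, true)) σ' = A (0, true) -
      effG F0 K n (upd orig n (0, true)) * (sgn (σ m) * sgn (σ (rend (n + 1) orig))) := by
    rw [c]
    have := hp2 (0, true)
    rw [e3, e4, ← hm, s1m, s1o _ hrm, sgn_not] at this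
    rw [show en K n (upd orig n (0, true)) (σp (0, true)) = _ from this]
    ring
  -- the ground state inequality
  have hne : σ' ≠ σ := by
    intro h
    have h1 : σ' m = σ1 m := d3 m (hm ▸ mid_notMem_inner n 0 orig _) (hm ▸ mid_notMem_inner n 0 orig _)
    rw [h, s1m] at h1
    cases hh : σ m <;> rw [hh] at h1 <;> simp at h1
  have hsub : ∀ v, σ' v ≠ σ v → v ∈ Q291.HEA.inner (n + 1) (orig : Bond B e) := by
    intro v hv
    by_contra hcon'
    apply hv
    rw [d3 v (fun h => hcon' (inner_sub he n orig _ h)) (fun h => hcon' (inner_sub he n orig _ h)),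
      s1o v fun h => hcon' (h ▸ hm ▸ mid_mem he n orig 0)]
  have hfin : {v | σ' v ≠ σ v}.Finite :=
    (((hF he).2.2.2.1 (n + 1) (orig : Bond B e)).2.1).subset fun v hv => hsub v hv
  have hpos : 0 < ∑ᶠ b, df K σ σ' b := hσ σ' hne hfin
  have hout : ∀ v : Site B e, (v ∉ Q291.HEA.inner n (upd (orig : Bond B e) n (0, false))) →
      (v ∉ Q291.HEA.inner n (upd (orig : Bond B e) n (0, true))) → v ≠ m → σ' v = σ v :=
    fun v h1 h2 h3 => by rw [d3 v h1 h2, s1o v h3]
  have hC : ∀ b, b ∉ cellb n (upd (orig : Bond B e) n (0, false)) ∪ cellb n (upd orig n (0, true)) →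
      σ' (lend 0 b) = σ (lend 0 b) ∧ σ' (rend 0 b) = σ (rend 0 b) := by
    intro b hb
    have i1 : ∀ s : Bool, lend 0 b ∉ Q291.HEA.inner n (upd (orig : Bond B e) n (0, s)) ∧
        rend 0 b ∉ Q291.HEA.inner n (upd (orig : Bond B e) n (0, s)) := by
      intro s
      have i2 : b ∉ cellb n (upd (orig : Bond B e) n (0, s)) := by
        intro h
        apply hb
        cases s
        · left; exact h
        · right; exact h
      constructor
      · intro h
        exact i2 ((hF he).2.2.2.2.1 n _ (Or.inl h))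
      · intro h
        exact i2 ((hF he).2.2.2.2.1 n _ (Or.inr h))
    have i3 : lend 0 b ≠ m := fun h => hb (bond_mid he n b (Or.inl (by rw [h, hm])))
    have i4 : rend 0 b ≠ m := fun h => hb (bond_mid he n b (Or.inr (by rw [h, hm])))
    exact ⟨hout _ (i1 false).1 (i1 true).1 i3, hout _ (i1 false).2 (i1 true).2 i4⟩
  rw [sum_df hC, finsum_mem_union (by
    rw [Set.disjoint_left]
    intro b h1 h2
    have := cellb_disj h1 h2
    simp at this) ((hF he).2.2.2.1 n _).1 ((hF he).2.2.2.1 n _).1, cell_df he, cell_df he] at hpos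
  -- conclusion
  have htot : 0 < effG F0 K n (upd orig n (0, false)) * (sgn (σ (lend (n + 1) orig)) * sgn (σ m)) +
      effG F0 K n (upd orig n (0, true)) * (sgn (σ m) * sgn (σ (rend (n + 1) orig))) := by
    linarith
  have habs : ∀ (z : ℝ) (a b : Bool), |z * (sgn a * sgn b)| = |z| := by
    intro z a b
    rw [abs_mul]
    have : |sgn a * sgn b| = 1 := by
      cases a <;> cases b <;> simp [sgn]
    rw [this, mul_one]
  have horig : effG F0 K n (orig : Bond B e) = effG F0 K n (upd orig n (0, e n)) := by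
    rw [← orig_eq]
  have hpe : pe n (orig : Bond B e) σ = pe n (upd orig n (0, e n)) σ := by
    rw [← orig_eq]
  cases hen : e n
  · have hs : (sib n : Bond B e) = upd orig n (0, true) := by
      unfold sib; rw [hen]; rfl
    rw [horig, hpe, hen] at hcon
    rw [hs, horig, hen] at hn
    have hp : pe n (upd (orig : Bond B e) n (0, false)) σ = sgn (σ (lend (n + 1) orig)) * sgn (σ m) := by
      unfold pe
      rw [e1, e2, hm]
    rw [hp] at hcon
    have h1 := habs (effG F0 K n (upd orig n (0, false))) (σ (lend (n + 1) orig)) (σ m)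
    have h2 := habs (effG F0 K n (upd orig n (0, true))) (σ m) (σ (rend (n + 1) orig))
    rw [abs_of_nonpos hcon] at h1
    have h3 := le_abs_self (effG F0 K n (upd orig n (0, true)) *
      (sgn (σ m) * sgn (σ (rend (n + 1) orig))))
    linarith
  · have hs : (sib n : Bond B e) = upd orig n (0, false) := by
      unfold sib; rw [hen]; rfl
    rw [horig, hpe, hen] at hcon
    rw [hs, horig, hen] at hn
    have hp : pe n (upd (orig : Bond B e) n (0, true)) σ = sgn (σ m) * sgn (σ (rend (n + 1) orig)) := by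
      unfold pe
      rw [e3, e4, hm]
    rw [hp] at hcon
    have h1 := habs (effG F0 K n (upd orig n (0, true))) (σ m) (σ (rend (n + 1) orig))
    have h2 := habs (effG F0 K n (upd orig n (0, false))) (σ (lend (n + 1) orig)) (σ m)
    rw [abs_of_nonpos hcon] at h1
    have h3 := le_abs_self (effG F0 K n (upd orig n (0, false)) *
      (sgn (σ (lend (n + 1) orig)) * sgn (σ m)))
    linarith

/-- Two ground states which agree at the ends agree in the cell. -/
theorem agree (he : Alt e) {K : Bond B e → ℝ} {n : ℕ} {σ τ : Site B e → Bool}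
    (hσ : IsGround (lend 0) (rend 0) K σ) (hτ : IsGround (lend 0) (rend 0) K τ)
    (hl : τ (lend n orig) = σ (lend n orig)) (hr : τ (rend n orig) = σ (rend n orig)) :
    ∀ v ∈ Q291.HEA.inner n (orig : Bond B e), τ v = σ v := by
  classical
  have main : ∀ σ τ : Site B e → Bool, IsGround (lend 0) (rend 0) K σ →
      τ (lend n orig) = σ (lend n orig) → τ (rend n orig) = σ (rend n orig) →
      (∃ v ∈ Q291.HEA.inner n (orig : Bond B e), τ v ≠ σ v) →
      0 < en K n orig σ - en K n orig τ := by
    intro σ τ hσ hl hr ⟨v0, hv0, hne0⟩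
    obtain ⟨σ', hσ'⟩ : ∃ σ' : Site B e → Bool, σ' = fun v =>
      if v ∈ Q291.HEA.inner n (orig : Bond B e) then τ v else σ v := ⟨_, rfl⟩
    have d1 : ∀ v ∈ Q291.HEA.inner n (orig : Bond B e), σ' v = τ v := fun v hv => by
      rw [hσ']; simp only [if_pos hv]
    have d2 : ∀ v, v ∉ Q291.HEA.inner n (orig : Bond B e) → σ' v = σ v := fun v hv => by
      rw [hσ']; simp only [if_neg hv]
    have hne : σ' ≠ σ := fun h => hne0 (by rw [← d1 v0 hv0, h])
    have hfin : {v | σ' v ≠ σ v}.Finite :=
      (((hF he).2.2.2.1 n (orig : Bond B e)).2.1).subset fun v hv => by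
        by_contra h
        exact hv (d2 v h)
    have hpos : 0 < ∑ᶠ b, df K σ σ' b := hσ σ' hne hfin
    rw [sum_df (C := cellb n orig) (by
      intro b hb
      constructor
      · apply d2
        intro h
        exact hb ((hF he).2.2.2.2.1 n _ (Or.inl h))
      · apply d2
        intro h
        exact hb ((hF he).2.2.2.2.1 n _ (Or.inr h))), cell_df he] at hpos
    have h1 : en K n orig σ' = en K n orig τ := by
      apply en_congr he K n orig d1
      · rw [d2 _ (lend_notMem he n orig), hl]
      · rw [d2 _ (rend_notMem he n orig), hr]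
    rw [h1] at hpos
    exact hpos
  intro v hv
  by_contra hcon
  have h1 := main σ τ hσ hl hr ⟨v, hv, hcon⟩
  have h2 := main τ σ hτ hl.symm hr.symm ⟨v, hv, fun h => hcon h.symm⟩
  linarith

theorem t_GSU : P_DECZ → P_GSU := by
  intro hD B _ e he K hg hfr σ τ hσ hτ
  -- strict inequality
  have hst : ∀ n, |effG F0 K n (sib n)| ≤ |effG F0 K n (orig : Bond B e)| →
      |effG F0 K n (sib n)| < |effG F0 K n (orig : Bond B e)| := by
    intro n hn
    refine lt_of_le_of_ne hn fun heq => ?_
    have s1 := effG_SS he K n (sib n)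
    have s2 := effG_SS he K n (orig : Bond B e)
    have hd : Disjoint (cellb n (sib n : Bond B e)) (cellb n orig) := by
      rw [Set.disjoint_left]
      intro b h1 h2
      rw [orig_eq n] at h2
      have h3 := cellb_disj (ω := orig) h1 h2
      have h4 := congrArg Prod.snd h3
      simp at h4
    rcases abs_eq_abs.1 heq with h | h
    · have := (s1.add s2.neg hd).ne hg
      apply this
      rw [h]; ring
    · have := (s1.add s2 hd).ne hg
      apply this
      rw [h]; ring
  -- agreement at good levels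
  have hgood : ∀ n, |effG F0 K n (sib n)| ≤ |effG F0 K n (orig : Bond B e)| →
      (∀ v ∈ Q291.HEA.inner n (orig : Bond B e), τ v = σ v) ∨
      ∀ v ∈ Q291.HEA.inner n (orig : Bond B e), τ v = !(σ v) := by
    intro n hn
    have p1 := sign_own hD he hg (hst n hn) hσ
    have p2 := sign_own hD he hg (hst n hn) hτ
    unfold pe at p1 p2
    by_cases hl : τ (lend n orig) = σ (lend n orig)
    · left
      refine agree he hσ hτ hl ?_
      rw [hl] at p2
      by_contra hr
      have hr' : τ (rend n orig) = !(σ (rend n orig)) := by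
        cases h1 : τ (rend n (orig : Bond B e)) <;> cases h2 : σ (rend n (orig : Bond B e)) <;>
          simp_all
      rw [hr', sgn_not] at p2
      linarith
    · right
      have hl' : τ (lend n orig) = !(σ (lend n orig)) := by
        cases h1 : τ (lend n (orig : Bond B e)) <;> cases h2 : σ (lend n (orig : Bond B e)) <;>
          simp_all
      refine agree he (ground_flip hσ) hτ hl' ?_
      rw [hl', sgn_not] at p2
      by_contra hr
      have hr' : τ (rend n orig) = σ (rend n orig) := by
        cases h1 : τ (rend n (orig : Bond B e)) <;> cases h2 : σ (rend n (orig : Bond B e)) <;>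
          simp_all
      rw [hr'] at p2
      linarith
  by_contra hcon
  push Not at hcon
  obtain ⟨v, hv⟩ := Function.ne_iff.1 hcon.1
  obtain ⟨w, hw⟩ := Function.ne_iff.1 hcon.2
  obtain ⟨nv, hnv⟩ := (hF he).2.2.2.2.2.2.2 v
  obtain ⟨nw, hnw⟩ := (hF he).2.2.2.2.2.2.2 w
  obtain ⟨n, hn, hio⟩ := (Filter.frequently_atTop.1 hfr) (max nv nw)
  have mono := (hF (B := B) he).2.2.2.2.2.2.1
  have h1 : v ∈ Q291.HEA.inner n (orig : Bond B e) := mono (le_trans (le_max_left _ _) hn) hnv
  have h2 : w ∈ Q291.HEA.inner n (orig : Bond B e) := mono (le_trans (le_max_right _ _) hn) hnw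
  rcases hgood n hio with h | h
  · exact hv (h v h1)
  · exact hw (h w h2)

end Pool.Agent.Q137.HEA.GSU
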