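import Pool.Agent.Q291.HEA.Stm3
import Pool.Agent.Q150.HEA.HFIN
import Pool.Agent.Q102.HEA.MEM
import Pool.Agent.Q102.HEA.DEP
import Pool.Agent.Q261.HEA.GEX
import Pool.Agent.Q261.HEA.GFL
import Pool.Agent.Q261.HEA.GUN
import Pool.Agent.Q111.HEA.LOW

/-! # Project HEA: common lemmas for EVEN and TWO -/

set_option autoImplicit false

namespace Pool.Agent.Q137.HEA.Lam

open MeasureTheory Filter Topology Set Pool.Agent.Q291.HEA
open Pool.Agent.Q261.HEA (flp meas_flp fv_flp meas_fv int_fv fv_nonneg fv_le ext_cyl cyl_clopen)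

theorem hfin : P_HFIN := Pool.Agent.Q150.HEA.t_HFIN
theorem hends : P_ENDS := Pool.Agent.Q150.HEA.t_ENDS hfin
theorem hdec : P_DEC := Pool.Agent.Q102.HEA.DEC.t_DEC hfin hends
theorem hdep : P_DEP := Pool.Agent.Q102.HEA.DEP.t_DEP hfin hends
theorem hgco : P_GCO := Pool.Agent.Q261.HEA.t_GCO
theorem hmem : P_MEM := Pool.Agent.Q102.HEA.MEM.t_MEM hfin hends hdec hgco

variable {B : ℕ} [NeZero B] {e : ℕ → Bool}

/-- the finite sets -/
noncomputable def Lm (hA : Alt e) (n : ℕ) : Finset (Site B e) :=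
  ((@hfin B _ e hA).2.2.2.1 n orig).2.1.toFinset

theorem mem_Lm (hA : Alt e) (n : ℕ) (v : Site B e) :
    v ∈ Lm hA n ↔ v ∈ Pool.Agent.Q291.HEA.inner n (orig : Bond B e) :=
  Set.Finite.mem_toFinset _

theorem Lm_mono (hA : Alt e) : Monotone (Lm (B := B) hA) := by
  intro a b hab v hv
  rw [mem_Lm] at hv ⊢
  exact (@hfin B _ e hA).2.2.2.2.2.2.1 hab hv

theorem Lm_ex (hA : Alt e) (v : Site B e) : ∃ n, v ∈ Lm hA n := by
  obtain ⟨n, hn⟩ := (@hfin B _ e hA).2.2.2.2.2.2.2 v
  exact ⟨n, (mem_Lm hA n v).2 hn⟩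

theorem Lm_fin (hA : Alt e) (t : Finset (Site B e)) : ∃ m, ∀ n, m ≤ n → t ⊆ Lm hA n := by
  classical
  induction t using Finset.induction_on with
  | empty => exact ⟨0, fun n _ => Finset.empty_subset _⟩
  | insert b t _ ih =>
    obtain ⟨m, hm⟩ := ih
    obtain ⟨k, hk⟩ := Lm_ex hA b
    refine ⟨max m k, fun n hn v hv => ?_⟩
    rcases Finset.mem_insert.1 hv with rfl | hv
    · exact Lm_mono hA ((le_max_right m k).trans hn) hk
    · exact hm n ((le_max_left m k).trans hn) hv

theorem ne_ends (hA : Alt e) (n : ℕ) : lend n (orig : Bond B e) ≠ rend n orig :=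
  ((@hfin B _ e hA).2.2.2.1 n orig).2.2.2.2

theorem lend_not (hA : Alt e) (n : ℕ) : lend n (orig : Bond B e) ∉ Lm hA n := by
  rw [mem_Lm]
  exact ((@hfin B _ e hA).2.2.2.1 n orig).2.2.1

theorem rend_not (hA : Alt e) (n : ℕ) : rend n (orig : Bond B e) ∉ Lm hA n := by
  rw [mem_Lm]
  exact ((@hfin B _ e hA).2.2.2.1 n orig).2.2.2.1

theorem lf (hA : Alt e) : LF (lend (B := B) (e := e) 0) (rend 0) := (@hfin B _ e hA).2.2.1

/-- the finite volume measure in `Lm n` -/
noncomputable def fv (hA : Alt e) (K : Bond B e → ℝ) (n : ℕ) (σ : Site B e → Bool)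
    (A : Set (Site B e → Bool)) : ℝ := finiteVolume (lend 0) (rend 0) K (Lm hA n) σ A

/-- `A` depends on the spins in `Lm m` only -/
def DepOn (hA : Alt e) (m : ℕ) (A : Set (Site B e → Bool)) : Prop :=
  ∀ η η' : Site B e → Bool, (∀ v ∈ Lm hA m, η v = η' v) → (η ∈ A ↔ η' ∈ A)

theorem DepOn.mono {hA : Alt e} {m n : ℕ} {A : Set (Site B e → Bool)} (h : DepOn hA m A)
    (hmn : m ≤ n) : DepOn hA n A := fun η η' H => h η η' fun v hv => H v (Lm_mono hA hmn hv)

theorem fv_dep (hA : Alt e) (K : Bond B e → ℝ) {n : ℕ} {A : Set (Site B e → Bool)}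
    (h : DepOn hA n A) {σ σ' : Site B e → Bool} (h1 : σ (lend n orig) = σ' (lend n orig))
    (h2 : σ (rend n orig) = σ' (rend n orig)) : fv hA K n σ A = fv hA K n σ' A := by
  refine @hdep B _ e hA K n (Lm hA n) (mem_Lm hA n) ∅ A ?_ σ σ' ?_
  · intro η η' H
    exact h η η' fun v hv => H v (Or.inr hv)
  · intro v hv
    rcases hv with hv | hv | hv
    · exact absurd hv (notMem_empty v)
    · rw [hv]
      exact h1
    · rw [mem_singleton_iff.1 hv]
      exact h2

open Classical in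
/-- events depending on `Lm n` and the middle site -/
theorem fv_step' (hA : Alt e) (K : Bond B e → ℝ) {n : ℕ} {A : Set (Site B e → Bool)}
    (hAm : MeasurableSet A) (h : ∀ η η' : Site B e → Bool,
      (∀ v, v = mid n 0 orig ∨ v ∈ Lm hA n → η v = η' v) → (η ∈ A ↔ η' ∈ A))
    (σ : Site B e → Bool) :
    fv hA K (n + 1) σ A =
      (1 + Real.tanh ((two K n).1 * sgn (σ (lend (n + 1) orig)) +
        (two K n).2 * sgn (σ (rend (n + 1) orig)))) / 2 *
          fv hA K n (Function.update σ (mid n 0 orig) true) A +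
      (1 - Real.tanh ((two K n).1 * sgn (σ (lend (n + 1) orig)) +
        (two K n).2 * sgn (σ (rend (n + 1) orig)))) / 2 *
          fv hA K n (Function.update σ (mid n 0 orig) false) A :=
  @hmem B _ e hA K n (Lm hA n) (Lm hA (n + 1)) (mem_Lm hA n) (mem_Lm hA (n + 1)) A hAm
    (fun η η' H => h η η' fun v hv => H v hv) σ

open Classical in
theorem fv_step (hA : Alt e) (K : Bond B e → ℝ) {n : ℕ} {A : Set (Site B e → Bool)}
    (hAm : MeasurableSet A) (h : DepOn hA n A) (σ : Site B e → Bool) :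
    fv hA K (n + 1) σ A =
      (1 + Real.tanh ((two K n).1 * sgn (σ (lend (n + 1) orig)) +
        (two K n).2 * sgn (σ (rend (n + 1) orig)))) / 2 *
          fv hA K n (Function.update σ (mid n 0 orig) true) A +
      (1 - Real.tanh ((two K n).1 * sgn (σ (lend (n + 1) orig)) +
        (two K n).2 * sgn (σ (rend (n + 1) orig)))) / 2 *
          fv hA K n (Function.update σ (mid n 0 orig) false) A :=
  fv_step' hA K hAm (fun η η' H => h η η' fun v hv => H v (Or.inr hv)) σ

theorem own_sib_false (K : Bond B e → ℝ) {n : ℕ} (he : e n = false) :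
    (two K n).1 = eff K n orig ∧ (two K n).2 = eff K n (sib n) := by
  unfold two sib
  rw [he]
  refine ⟨?_, rfl⟩
  show eff K n (upd orig n (0, false)) = _
  rw [← he, Pool.Agent.Q111.HEA.upd_orig]

theorem own_sib_true (K : Bond B e → ℝ) {n : ℕ} (he : e n = true) :
    (two K n).2 = eff K n orig ∧ (two K n).1 = eff K n (sib n) := by
  unfold two sib
  rw [he]
  refine ⟨?_, rfl⟩
  show eff K n (upd orig n (0, true)) = _
  rw [← he, Pool.Agent.Q111.HEA.upd_orig]

/-- a cylinder depends on `Lm m` for a large `m` -/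
theorem cyl_dep (hA : Alt e) {A : Set (Site B e → Bool)}
    (h : A ∈ measurableCylinders (fun _ : Site B e => Bool)) : ∃ m, DepOn hA m A := by
  obtain ⟨s, S, hS, rfl⟩ := (mem_measurableCylinders _).1 h
  obtain ⟨m, hm⟩ := Lm_fin hA s
  refine ⟨m, fun η η' heq => ?_⟩
  rw [mem_cylinder, mem_cylinder]
  have : s.restrict η = s.restrict η' := by
    funext v
    exact heq v (hm m le_rfl v.2)
  rw [this]

theorem fv_near (hA : Alt e) (K : Bond B e → ℝ) {π : Measure (Site B e → Bool)}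
    (hπ : IsGibbs (lend 0) (rend 0) K π) (n : ℕ) {A : Set (Site B e → Bool)}
    (hAm : MeasurableSet A) (a δ : ℝ) (h : ∀ σ, |fv hA K n σ A - a| ≤ δ) :
    |π.real A - a| ≤ δ := by
  have := (@hfin B _ e hA).2.1
  have := hπ.1
  rw [hπ.2 (Lm hA n) _ hAm]
  have h1 : ∫ σ, finiteVolume (lend 0) (rend 0) K (Lm hA n) σ A ∂π - a =
      ∫ σ, (finiteVolume (lend 0) (rend 0) K (Lm hA n) σ A - a) ∂π := by
    rw [integral_sub (int_fv (lf hA) K (Lm hA n) hAm π) (integrable_const _), integral_const]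
    simp
  rw [h1]
  have h2 := norm_integral_le_of_norm_le_const (μ := π) (C := δ)
    (f := fun σ => finiteVolume (lend 0) (rend 0) K (Lm hA n) σ A - a)
    (Filter.Eventually.of_forall fun σ => by
      rw [Real.norm_eq_abs]
      exact h σ)
  rw [Real.norm_eq_abs] at h2
  simpa using h2

end Pool.Agent.Q137.HEA.Lam
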