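import Pool.Agent.Q137.HEA.EVEN

/-! # Project HEA, job TWO: two pure states -/

set_option autoImplicit false

namespace Pool.Agent.Q137.HEA.TWO

open MeasureTheory Filter Topology Set Pool.Agent.Q291.HEA
open Pool.Agent.Q261.HEA (flp meas_flp fv_flp meas_fv int_fv fv_nonneg fv_le ext_cyl cyl_clopen
  fvm fvm_prob fvm_int wf wf_pos fv_eq cont_fv dlr_of_cyl cons)
open Pool.Agent.Q137.HEA.Lam Pool.Agent.Q137.HEA.EVEN

section gen

variable {V E : Type} {l r : E → V}

open Classical in
/-- limits of finite volume measures along an ultrafilter -/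
theorem gex_lim [Countable V] (h : LF l r) (K : E → ℝ) (Λ : ℕ → Finset V) (hmono : Monotone Λ)
    (hex : ∀ v, ∃ n, v ∈ Λ n) (U : Ultrafilter ℕ) (hU : (U : Filter ℕ) ≤ atTop)
    (σ : ℕ → V → Bool) :
    ∃ π : Measure (V → Bool), IsGibbs l r K π ∧ ∀ A : Set (V → Bool), IsClopen A →
      Tendsto (fun n => finiteVolume l r K (Λ n) (σ n) A) U (𝓝 (π.real A)) := by
  obtain ⟨P, hP⟩ : ∃ P : ℕ → ProbabilityMeasure (V → Bool),
      ∀ n, (P n : Measure (V → Bool)) = fvm l r K (Λ n) (σ n) :=
    ⟨fun n => ⟨fvm l r K (Λ n) (σ n), fvm_prob K (Λ n) (σ n)⟩, fun n => rfl⟩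
  obtain ⟨π, -, hπ⟩ := isCompact_univ.ultrafilter_le_nhds (U.map P) (by simp)
  have hT : Tendsto P U (𝓝 π) := hπ
  have hlim : ∀ g : (V → Bool) → ℝ, Continuous g →
      Tendsto (fun n => ∑ η : Λ n → Bool, wf l r K (Λ n) η (σ n) * g (glue (Λ n) η (σ n)))
        U (𝓝 (∫ s, g s ∂(π : Measure (V → Bool)))) := by
    intro g hg
    have h1 := ProbabilityMeasure.tendsto_iff_forall_integral_tendsto.1 hT
      (BoundedContinuousFunction.mkOfCompact ⟨g, hg⟩)
    refine h1.congr fun n => ?_
    rw [hP n]
    exact fvm_int K (Λ n) (σ n) g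
  have hclo : ∀ A : Set (V → Bool), IsClopen A →
      Tendsto (fun n => finiteVolume l r K (Λ n) (σ n) A)
        U (𝓝 ((π : Measure (V → Bool)).real A)) := by
    intro A hA
    have h1 := hlim (A.indicator (fun _ => (1 : ℝ))) (IsClopen.continuous_indicator hA
      continuous_const)
    have h2 : ∫ s, A.indicator (fun _ => (1 : ℝ)) s ∂(π : Measure (V → Bool)) =
        (π : Measure (V → Bool)).real A := integral_indicator_one hA.isOpen.measurableSet
    rw [h2] at h1
    refine h1.congr fun n => ?_
    rw [fv_eq]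
  refine ⟨π, ⟨inferInstance, fun Γ A hA => ?_⟩, hclo⟩
  refine dlr_of_cyl h K Γ _ (fun C hC => ?_) hA
  have hCc := cyl_clopen hC
  have h1 := hlim _ (cont_fv h K Γ hCc)
  have h2 := hclo C hCc
  refine tendsto_nhds_unique_of_eventuallyEq h2 h1 ?_
  have hsub : ∃ m, ∀ n, m ≤ n → Γ ⊆ Λ n := by
    have : ∀ t : Finset V, ∃ m, ∀ n, m ≤ n → t ⊆ Λ n := by
      intro t
      induction t using Finset.induction_on with
      | empty => exact ⟨0, fun n _ => Finset.empty_subset _⟩
      | insert b t _ ih =>
        obtain ⟨m, hm⟩ := ih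
        obtain ⟨k, hk⟩ := hex b
        refine ⟨max m k, fun n hn v hv => ?_⟩
        rcases Finset.mem_insert.1 hv with rfl | hv
        · exact hmono ((le_max_right m k).trans hn) hk
        · exact hm n ((le_max_left m k).trans hn) hv
    exact this Γ
  obtain ⟨m, hm⟩ := hsub
  refine hU (Filter.mem_of_superset (Filter.Ici_mem_atTop m) fun n hn => ?_)
  have h3 := cons (hm n hn) h K (σ n) (C.indicator (fun _ => (1 : ℝ)))
  show finiteVolume l r K (Λ n) (σ n) C = ∑ η : Λ n → Bool, wf l r K (Λ n) η (σ n) *
    finiteVolume l r K Γ (glue (Λ n) η (σ n)) C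
  rw [fv_eq, h3]
  exact Finset.sum_congr rfl fun η _ => by rw [fv_eq]

end gen

variable {B : ℕ} [NeZero B] {e : ℕ → Bool}

theorem fv01 (hA : Alt e) (K : Bond B e → ℝ) (n : ℕ) (σ : Site B e → Bool)
    (A : Set (Site B e → Bool)) : 0 ≤ fv hA K n σ A ∧ fv hA K n σ A ≤ 1 :=
  ⟨fv_nonneg _ _ _ _, fv_le _ _ _ _⟩

/-- the reference boundary condition -/
noncomputable def rho (K : Bond B e → ℝ) (n : ℕ) : Site B e → Bool :=
  cf n (decide (0 < eff K n orig))

/-- the sign of `o * s + w * t` -/
theorem sign_lem (o w : ℝ) (h : |w| < |o|) (s t : Bool) :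
    decide (0 < o * sgn s + w * sgn t) = (s == decide (0 < o)) := by
  have s1 : sgn true = 1 := rfl
  have s2 : sgn false = -1 := rfl
  have hw := abs_lt.1 h
  rcases lt_trichotomy o 0 with ho | ho | ho
  · rw [abs_of_neg ho] at hw
    have h0 : ¬ (0 < o) := by linarith
    cases s <;> cases t <;> simp only [s1, s2, h0, decide_false]
    · rw [decide_eq_true (by linarith)]; rfl
    · rw [decide_eq_true (by linarith)]; rfl
    · rw [decide_eq_false (by linarith)]; rfl
    · rw [decide_eq_false (by linarith)]; rfl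
  · rw [ho, abs_zero] at h
    exact absurd h (not_lt.2 (abs_nonneg _))
  · rw [abs_of_pos ho] at hw
    cases s <;> cases t <;> simp only [s1, s2, ho, decide_true]
    · rw [decide_eq_false (by linarith)]; rfl
    · rw [decide_eq_false (by linarith)]; rfl
    · rw [decide_eq_true (by linarith)]; rfl
    · rw [decide_eq_true (by linarith)]; rfl

open Classical in
theorem one_step (hA : Alt e) (K : Bond B e → ℝ) {n : ℕ}
    (hgood : |eff K n (sib n)| ≤ |eff K n orig|) : ∃ (v : Site B e) (b : Bool),
    ∀ A : Set (Site B e → Bool), MeasurableSet A → DepOn hA n A → ∀ σ : Site B e → Bool,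
      |fv hA K (n + 1) σ A - (if σ v = b then fv hA K n (rho K n) A
        else fv hA K n (flp (rho K n)) A)| ≤
        1 - Real.tanh (|(|(two K n).1| - |(two K n).2|)|) := by
  rcases eq_or_lt_of_le hgood with heq | hlt
  · refine ⟨mid 0 0 orig, true, fun A hAm hd σ => ?_⟩
    have h1 : |(two K n).1| = |(two K n).2| := by
      cases he : e n with
      | false =>
        obtain ⟨k1, k2⟩ := own_sib_false K he
        rw [k1, k2, heq]
      | true =>
        obtain ⟨k1, k2⟩ := own_sib_true K he
        rw [k1, k2, heq]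
    rw [h1, sub_self, abs_zero, Real.tanh_zero, sub_zero]
    have f1 := fv01 hA K (n + 1) σ A
    have f2 := fv01 hA K n (rho K n) A
    have f3 := fv01 hA K n (flp (rho K n)) A
    split_ifs <;> rw [abs_le] <;> constructor <;> linarith [f1.1, f1.2, f2.1, f2.2, f3.1, f3.2]
  · obtain ⟨v, b, hvb⟩ : ∃ (v : Site B e) (b : Bool), ∀ σ : Site B e → Bool,
        let x := (two K n).1 * sgn (σ (lend (n + 1) orig)) +
          (two K n).2 * sgn (σ (rend (n + 1) orig))
        let σ' := Function.update σ (mid n 0 orig) (decide (0 < x))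
        (σ v = b → σ' (lend n orig) = rho K n (lend n orig) ∧
          σ' (rend n orig) = rho K n (rend n orig)) ∧
        (σ v ≠ b → σ' (lend n orig) = flp (rho K n) (lend n orig) ∧
          σ' (rend n orig) = flp (rho K n) (rend n orig)) := by
      have hne := ne_ends (B := B) hA n
      have r1 : rho K n (lend n orig) = true := cf_lend hA _ _
      have r2 : rho K n (rend n orig) = decide (0 < eff K n orig) := cf_rend _ _
      have r3 : flp (rho K n) (lend n orig) = false := by
        show (!(rho K n (lend n orig))) = false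
        rw [r1]
        rfl
      have r4 : flp (rho K n) (rend n orig) = !(decide (0 < eff K n orig)) := by
        show (!(rho K n (rend n orig))) = _
        rw [r2]
      cases he : e n with
      | false =>
        obtain ⟨k1, k2⟩ := own_sib_false K he
        obtain ⟨e1, e2⟩ := Pool.Agent.Q111.HEA.ends_false (B := B) hends hA n he
        refine ⟨lend (n + 1) orig, true, fun σ => ?_⟩
        intro x σ'
        have hx : decide (0 < x) = (σ (lend (n + 1) orig) == decide (0 < eff K n orig)) := by
          show decide (0 < (two K n).1 * sgn (σ (lend (n + 1) orig)) +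
            (two K n).2 * sgn (σ (rend (n + 1) orig))) = _
          rw [k1, k2]
          exact sign_lem _ _ hlt _ _
        have g1 : σ' (lend n orig) = σ (lend (n + 1) orig) := by
          show Function.update σ (mid n 0 orig) (decide (0 < x)) (lend n orig) = _
          rw [Function.update_of_ne (by rw [← e2]; exact hne), e1]
        have g2 : σ' (rend n orig) = (σ (lend (n + 1) orig) == decide (0 < eff K n orig)) := by
          show Function.update σ (mid n 0 orig) (decide (0 < x)) (rend n orig) = _
          rw [e2, Function.update_self, hx]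
        rw [g1, g2, r1, r2, r3, r4]
        cases σ (lend (n + 1) orig) <;> cases decide (0 < eff K n orig) <;> simp
      | true =>
        obtain ⟨k1, k2⟩ := own_sib_true K he
        obtain ⟨e1, e2⟩ := Pool.Agent.Q111.HEA.ends_true (B := B) hends hA n he
        refine ⟨rend (n + 1) orig, decide (0 < eff K n orig), fun σ => ?_⟩
        intro x σ'
        have hx : decide (0 < x) = (σ (rend (n + 1) orig) == decide (0 < eff K n orig)) := by
          show decide (0 < (two K n).1 * sgn (σ (lend (n + 1) orig)) +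
            (two K n).2 * sgn (σ (rend (n + 1) orig))) = _
          rw [k1, k2, add_comm]
          exact sign_lem _ _ hlt _ _
        have g1 : σ' (rend n orig) = σ (rend (n + 1) orig) := by
          show Function.update σ (mid n 0 orig) (decide (0 < x)) (rend n orig) = _
          rw [Function.update_of_ne (by rw [← e1]; exact hne.symm), e2]
        have g2 : σ' (lend n orig) = (σ (rend (n + 1) orig) == decide (0 < eff K n orig)) := by
          show Function.update σ (mid n 0 orig) (decide (0 < x)) (lend n orig) = _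
          rw [e1, Function.update_self, hx]
        rw [g1, g2, r1, r2, r3, r4]
        cases σ (rend (n + 1) orig) <;> cases decide (0 < eff K n orig) <;> simp
    refine ⟨v, b, fun A hAm hd σ => ?_⟩
    obtain ⟨x, hx⟩ : ∃ x : ℝ, x = (two K n).1 * sgn (σ (lend (n + 1) orig)) +
          (two K n).2 * sgn (σ (rend (n + 1) orig)) := ⟨_, rfl⟩
    have h1 := hvb σ
    have h2 := fv_step hA K hAm hd σ
    rw [← hx] at h1 h2
    have h3 : (if σ v = b then fv hA K n (rho K n) A else fv hA K n (flp (rho K n)) A) =
        fv hA K n (Function.update σ (mid n 0 orig) (decide (0 < x))) A := by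
      split_ifs with h4
      · exact (fv_dep hA K hd (h1.1 h4).1 (h1.1 h4).2).symm
      · exact (fv_dep hA K hd (h1.2 h4).1 (h1.2 h4).2).symm
    have hd1 : Real.tanh (|(|(two K n).1| - |(two K n).2|)|) ≤ Real.tanh |x| := by
      apply Pool.Agent.Q111.HEA.tanh_mono
      rw [hx]
      exact Pool.Agent.Q111.HEA.abs_x_ge _ _ _ _
    have f1 := fv01 hA K n (Function.update σ (mid n 0 orig) true) A
    have f2 := fv01 hA K n (Function.update σ (mid n 0 orig) false) A
    have t1 := Real.tanh_lt_one x
    have t2 := Real.neg_one_lt_tanh x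
    rw [h3, h2]
    rcases lt_or_ge 0 x with hx0 | hx0
    · rw [decide_eq_true hx0]
      rw [abs_of_pos hx0] at hd1
      rw [abs_le]
      constructor <;> nlinarith [f1.1, f1.2, f2.1, f2.2]
    · rw [decide_eq_false (not_lt.2 hx0)]
      rw [abs_of_nonpos hx0, Real.tanh_neg] at hd1
      rw [abs_le]
      constructor <;> nlinarith [f1.1, f1.2, f2.1, f2.2]

/-- **TWO** -/
theorem t_TWO : P_TWO := by
  intro B _ e hA K hsum hfr
  have c2 := (@hfin B _ e hA).2.1
  obtain ⟨c, hc⟩ : ∃ c : ℕ → ℝ, ∀ n, c n =
      1 - Real.tanh (|(|(two K n).1| - |(two K n).2|)|) := ⟨_, fun _ => rfl⟩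
  have hc0 : Tendsto c atTop (𝓝 0) := by
    have h1 := hsum.tendsto_atTop_zero
    exact h1.congr fun n => (hc n).symm
  have hfr' : (atTop ⊓ 𝓟 {n : ℕ | |eff K n (sib n)| ≤ |eff K n orig|}).NeBot :=
    frequently_iff_neBot.1 hfr
  obtain ⟨U, hU⟩ := Ultrafilter.exists_le
    (atTop ⊓ 𝓟 {n : ℕ | |eff K n (sib n)| ≤ |eff K n orig|})
  have hU1 : (U : Filter ℕ) ≤ atTop := hU.trans inf_le_left
  have hU2 : ∀ᶠ n in (U : Filter ℕ), |eff K n (sib n)| ≤ |eff K n orig| :=
    hU (mem_inf_of_right (mem_principal_self _))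
  obtain ⟨π, hπ, hlim⟩ := gex_lim (lf hA) K (Lm hA) (Lm_mono hA) (Lm_ex hA) U hU1 (rho K)
  have hπ1 := hπ.1
  refine ⟨π, hπ, fun π' hπ' => ?_⟩
  have hp' := hπ'.1
  have hstep : ∀ n, ∃ (v : Site B e) (b : Bool), |eff K n (sib n)| ≤ |eff K n orig| →
    ∀ A : Set (Site B e → Bool), MeasurableSet A → DepOn hA n A → ∀ σ : Site B e → Bool,
      |fv hA K (n + 1) σ A - (if σ v = b then fv hA K n (rho K n) A
        else fv hA K n (flp (rho K n)) A)| ≤ c n := by
    intro n
    by_cases hg : |eff K n (sib n)| ≤ |eff K n orig|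
    · obtain ⟨v, b, h⟩ := one_step hA K hg
      refine ⟨v, b, fun _ A hAm hd σ => ?_⟩
      rw [hc]
      exact h A hAm hd σ
    · exact ⟨mid 0 0 orig, true, fun h => absurd h hg⟩
  choose v b hvb using hstep
  obtain ⟨T, hT⟩ : ∃ T : ℕ → ℝ, ∀ n, T n = π'.real {σ | σ (v n) = b n} := ⟨_, fun _ => rfl⟩
  have hT01 : ∀ n, T n ∈ Set.Icc (0 : ℝ) 1 := by
    intro n
    rw [hT]
    exact ⟨measureReal_nonneg, measureReal_le_one⟩
  obtain ⟨t, ht, hTt⟩ := (isCompact_Icc (a := (0 : ℝ)) (b := 1)).ultrafilter_le_nhds (U.map T)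
    (by
      rw [le_principal_iff]
      exact Filter.mem_map.2 (Filter.univ_mem' hT01))
  have hTt' : Tendsto T U (𝓝 t) := hTt
  refine ⟨t, ht.1, ht.2, ?_⟩
  have hfl : IsProbabilityMeasure (π.map (flp : (Site B e → Bool) → Site B e → Bool)) :=
    Measure.isProbabilityMeasure_map meas_flp.aemeasurable
  have hfin1 : IsFiniteMeasure (ENNReal.ofReal t • π) := ⟨by
    rw [Measure.smul_apply, measure_univ, smul_eq_mul, mul_one]
    exact ENNReal.ofReal_lt_top⟩
  have hfin2 : IsFiniteMeasure (ENNReal.ofReal (1 - t) • π.map flp) := ⟨by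
    rw [Measure.smul_apply, measure_univ, smul_eq_mul, mul_one]
    exact ENNReal.ofReal_lt_top⟩
  show π' = ENNReal.ofReal t • π + ENNReal.ofReal (1 - t) • π.map flp
  refine ext_cyl fun A hAc => ?_
  have hAm : MeasurableSet A := MeasurableSet.of_mem_measurableCylinders hAc
  have hAo := cyl_clopen hAc
  obtain ⟨m, hm⟩ := cyl_dep hA hAc
  have hval : (ENNReal.ofReal t • π + ENNReal.ofReal (1 - t) • π.map flp).real A =
      t * π.real A + (1 - t) * π.real (flp ⁻¹' A) := by
    rw [measureReal_add_apply, measureReal_ennreal_smul_apply, measureReal_ennreal_smul_apply,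
      ENNReal.toReal_ofReal ht.1, ENNReal.toReal_ofReal (by linarith [ht.2]),
      map_measureReal_apply meas_flp hAm]
  rw [hval]
  have l1 : Tendsto (fun n => fv hA K n (rho K n) A) U (𝓝 (π.real A)) := hlim A hAo
  have l2 : Tendsto (fun n => fv hA K n (flp (rho K n)) A) U (𝓝 (π.real (flp ⁻¹' A))) := by
    have hcl : IsClopen ((flp : (Site B e → Bool) → Site B e → Bool) ⁻¹' A) := by
      refine hAo.preimage ?_
      exact continuous_pi fun w => (continuous_of_discreteTopology (f := fun b : Bool => !b)).comp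
        (continuous_apply w)
    refine (hlim _ hcl).congr fun n => ?_
    unfold fv
    rw [fv_flp]
  have l3 : Tendsto (fun n => T n * fv hA K n (rho K n) A +
      (1 - T n) * fv hA K n (flp (rho K n)) A) U
      (𝓝 (t * π.real A + (1 - t) * π.real (flp ⁻¹' A))) :=
    (hTt'.mul l1).add ((tendsto_const_nhds.sub hTt').mul l2)
  have l4 : ∀ᶠ n in (U : Filter ℕ), |π'.real A - (T n * fv hA K n (rho K n) A +
      (1 - T n) * fv hA K n (flp (rho K n)) A)| ≤ c n := by
    filter_upwards [hU2, hU1 (Filter.Ici_mem_atTop m)] with n hn hnm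
    have hd : DepOn hA n A := hm.mono hnm
    have h1 := hvb n hn A hAm hd
    have hms : MeasurableSet {σ : Site B e → Bool | σ (v n) = b n} :=
      (measurable_pi_apply (v n) : Measurable fun η : Site B e → Bool => η (v n))
        (measurableSet_singleton (b n))
    obtain ⟨f, hf⟩ : ∃ f : (Site B e → Bool) → ℝ, f = fun σ =>
      (if σ (v n) = b n then fv hA K n (rho K n) A else fv hA K n (flp (rho K n)) A) := ⟨_, rfl⟩
    have hfe : f = fun σ => ({σ : Site B e → Bool | σ (v n) = b n}.indicator (fun _ =>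
        fv hA K n (rho K n) A - fv hA K n (flp (rho K n)) A) σ) + fv hA K n (flp (rho K n)) A := by
      rw [hf]
      funext σ
      by_cases h5 : σ (v n) = b n
      · rw [if_pos h5, Set.indicator_of_mem (show σ ∈ {σ : Site B e → Bool | σ (v n) = b n}
          from h5)]
        ring
      · rw [if_neg h5, Set.indicator_of_notMem (show σ ∉ {σ : Site B e → Bool | σ (v n) = b n}
          from h5)]
        ring
    have hfi : Integrable f π' := by
      rw [hfe]
      exact ((integrable_const _).indicator hms).add (integrable_const _)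
    have hfint : ∫ σ, f σ ∂π' = T n * fv hA K n (rho K n) A +
        (1 - T n) * fv hA K n (flp (rho K n)) A := by
      rw [hfe, integral_add ((integrable_const _).indicator hms) (integrable_const _),
        integral_indicator_const _ hms, integral_const, hT]
      simp only [probReal_univ, smul_eq_mul]
      ring
    have hAi := int_fv (lf hA) K (Lm hA (n + 1)) hAm π'
    rw [hπ'.2 (Lm hA (n + 1)) _ hAm, ← hfint, ← integral_sub hAi hfi]
    have h2 := norm_integral_le_of_norm_le_const (μ := π') (C := c n)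
      (f := fun σ => finiteVolume (lend 0) (rend 0) K (Lm hA (n + 1)) σ A - f σ)
      (Filter.Eventually.of_forall fun σ => by
        rw [Real.norm_eq_abs, hf]
        exact h1 σ)
    rw [Real.norm_eq_abs] at h2
    simpa using h2
  have l5 : Tendsto (fun n => T n * fv hA K n (rho K n) A +
      (1 - T n) * fv hA K n (flp (rho K n)) A) U (𝓝 (π'.real A)) := by
    rw [tendsto_iff_dist_tendsto_zero]
    refine squeeze_zero' (Filter.Eventually.of_forall fun n => dist_nonneg) ?_ (hc0.mono_left hU1)
    filter_upwards [l4] with n hn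
    rw [dist_comm, Real.dist_eq]
    exact hn
  exact tendsto_nhds_unique l5 l3

end Pool.Agent.Q137.HEA.TWO
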